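import Pool.Agent.X71.Hub.Cyc

/-!
# The lower bound
-/

namespace Pool.Agent.X71.Hub

open Finset SimpleGraph

/-! ### Weights -/

theorem Move.weight {V : Type*} [DecidableEq V] [Fintype V] {G : SimpleGraph V} (wt : V → ℕ)
    (hwt : ∀ u v, G.Adj u v → wt v ≤ 2 * wt u) {c d : V → ℕ} (h : Move G c d) :
    ∑ v, d v * wt v ≤ ∑ v, c v * wt v := by
  obtain ⟨u, v, hadj, h2, rfl⟩ := h
  have huv : u ≠ v := hadj.ne
  have e1 : Function.update (Function.update c u (c u - 2)) v (c v + 1) + Pi.single u 2 =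
      c + Pi.single v 1 := by
    funext w
    simp only [Pi.add_apply, Function.update_apply, Pi.single_apply]
    by_cases hv : w = v
    · subst hv
      simp [huv.symm]
    · by_cases hu : w = u
      · subst hu
        simp [hv]
        omega
      · simp [hv, hu]
  have e2 := congrArg (fun f : V → ℕ => ∑ w, f w * wt w) e1
  simp only [Pi.add_apply, add_mul, Finset.sum_add_distrib] at e2
  have e3 : ∑ w, (Pi.single u 2 : V → ℕ) w * wt w = 2 * wt u := by
    rw [Finset.sum_eq_single u]
    · simp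
    · intro w _ hw
      rw [Pi.single_eq_of_ne hw, zero_mul]
    · simp
  have e4 : ∑ w, (Pi.single v 1 : V → ℕ) w * wt w = wt v := by
    rw [Finset.sum_eq_single v]
    · simp
    · intro w _ hw
      rw [Pi.single_eq_of_ne hw, zero_mul]
    · simp
  rw [e3, e4] at e2
  have := hwt u v hadj
  omega

theorem Reach.weight {V : Type*} [DecidableEq V] [Fintype V] {G : SimpleGraph V} (wt : V → ℕ)
    (hwt : ∀ u v, G.Adj u v → wt v ≤ 2 * wt u) {c d : V → ℕ} (h : Reach G c d) :
    ∑ v, d v * wt v ≤ ∑ v, c v * wt v := by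
  induction h with
  | refl => exact le_rfl
  | tail _ hm ih => exact (Move.weight wt hwt hm).trans ih

/-- The weight of a vertex: two to the power of its distance from `0`. -/
def wt (m : ℕ) (v : Fin (m + 3)) : ℕ := 2 ^ (min v.val (m + 3 - v.val))

theorem phi_val_int (m : ℕ) (j : ℤ) : ((phi m j).val : ℤ) = j % (m + 3 : ℕ) := by
  have h : phi m j = phi m (j % (m + 3 : ℕ)) := by
    rw [phi_eq_iff]
    exact (Int.mod_modEq _ _).symm
  have h1 := Int.emod_nonneg j (by positivity : ((m + 3 : ℕ) : ℤ) ≠ 0)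
  have h2 := Int.emod_lt_of_pos j (by positivity : (0 : ℤ) < (m + 3 : ℕ))
  obtain ⟨k, hk⟩ : ∃ k : ℕ, (k : ℤ) = j % (m + 3 : ℕ) := ⟨_, Int.toNat_of_nonneg h1⟩
  rw [h, ← hk]
  have h3 := phi_val m ⟨k, by omega⟩
  simp only at h3
  rw [h3]

theorem wt_adj (m : ℕ) (u v : Fin (m + 3)) (h : (cycleGraph (m + 3)).Adj u v) :
    wt m v ≤ 2 * wt m u := by
  have hu := phi_val m u
  rw [← hu] at h
  have hlt := u.isLt
  unfold wt
  rw [← pow_succ']
  apply Nat.pow_le_pow_right (by norm_num)
  rcases phi_adj_cases m u.val v h with h1 | h1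
  · have h2 := phi_val_int m (u.val + 1)
    rw [← h1] at h2
    by_cases h3 : u.val + 1 < m + 3
    · have : ((u.val : ℤ) + 1) % ((m + 3 : ℕ) : ℤ) = u.val + 1 :=
        Int.emod_eq_of_lt (by omega) (by omega)
      omega
    · have e : (u.val : ℤ) + 1 = (m + 3 : ℕ) := by omega
      rw [e, Int.emod_self] at h2
      omega
  · have h2 := phi_val_int m (u.val - 1)
    rw [← h1] at h2
    by_cases h3 : 1 ≤ u.val
    · have : ((u.val : ℤ) - 1) % ((m + 3 : ℕ) : ℤ) = u.val - 1 :=
        Int.emod_eq_of_lt (by omega) (by omega)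
      omega
    · have e : (u.val : ℤ) - 1 = -1 := by omega
      rw [e] at h2
      have e2 : (-1 : ℤ) % ((m + 3 : ℕ) : ℤ) = (m + 3 : ℕ) - 1 := by
        have : (-1 : ℤ) = ((m + 3 : ℕ) - 1) + (m + 3 : ℕ) * (-1) := by ring
        rw [this, Int.add_mul_emod_self_left]
        exact Int.emod_eq_of_lt (by omega) (by omega)
      rw [e2] at h2
      omega

/-- Sum of all weights. -/
def wsum (n : ℕ) : ℕ := ∑ j ∈ range n, 2 ^ (min j (n - j))

theorem wsum_succ (n : ℕ) : wsum (n + 2) = 2 * wsum n + 3 := by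
  unfold wsum
  rw [Finset.sum_range_succ']
  have h : ∀ j ∈ range (n + 1), 2 ^ (min (j + 1) (n + 2 - (j + 1))) = 2 * 2 ^ (min j (n - j)) := by
    intro j hj
    have := Finset.mem_range.1 hj
    rw [← pow_succ']
    congr 1
    omega
  rw [Finset.sum_congr rfl h, ← Finset.mul_sum, Finset.sum_range_succ]
  simp
  ring

theorem wsum_even (k : ℕ) : wsum (2 * k + 2) + 3 = 2 ^ (k + 2) + 2 ^ (k + 1) := by
  induction k with
  | zero => decide
  | succ k ih =>
    have : 2 * (k + 1) + 2 = (2 * k + 2) + 2 := by ring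
    rw [this, wsum_succ]
    have e : 2 ^ (k + 1 + 2) + 2 ^ (k + 1 + 1) = 2 * (2 ^ (k + 2) + 2 ^ (k + 1)) := by ring
    rw [e, ← ih]
    ring

theorem wsum_odd (k : ℕ) : wsum (2 * k + 1) + 3 = 2 ^ (k + 2) := by
  induction k with
  | zero => decide
  | succ k ih =>
    have : 2 * (k + 1) + 1 = (2 * k + 1) + 2 := by ring
    rw [this, wsum_succ]
    have e : 2 ^ (k + 1 + 2) = 2 * 2 ^ (k + 2) := by ring
    rw [e, ← ih]
    ring

theorem sum_wt (m : ℕ) : ∑ v, wt m v = wsum (m + 3) := by
  unfold wt wsum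
  rw [Finset.sum_range]

/-- Two omitted adjacent vertices have bounded weight. -/
theorem wt_pair (m : ℕ) (s : ℤ) :
    cycleValue (m + 3) + wt m (phi m s) + wt m (phi m (s + 1)) ≤ wsum (m + 3) := by
  have h1 := phi_val_int m s
  have h2 := phi_val_int m (s + 1)
  set x := (phi m s).val with hx
  set y := (phi m (s + 1)).val with hy
  have hxl : x < m + 3 := (phi m s).isLt
  have hyl : y < m + 3 := (phi m (s + 1)).isLt
  have hxy : y = x + 1 ∨ (x = m + 2 ∧ y = 0) := by
    have e : (y : ℤ) = ((x : ℤ) + 1) % ((m + 3 : ℕ) : ℤ) := by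
      rw [h2, h1, Int.emod_add_emod]
    by_cases h3 : x + 1 < m + 3
    · left
      have : ((x : ℤ) + 1) % ((m + 3 : ℕ) : ℤ) = x + 1 := Int.emod_eq_of_lt (by omega) (by omega)
      omega
    · right
      have e2 : (x : ℤ) + 1 = (m + 3 : ℕ) := by omega
      rw [e2, Int.emod_self] at e
      omega
  unfold wt
  rw [← hx, ← hy]
  unfold cycleValue
  rcases Nat.even_or_odd (m + 3) with he | ho
  · rw [if_pos he]
    obtain ⟨k, hk⟩ := he
    obtain ⟨k', rfl⟩ : ∃ k', k = k' + 1 := ⟨k - 1, by omega⟩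
    have e1 : m + 3 = 2 * k' + 2 := by omega
    have e2 : (m + 3) / 2 = k' + 1 := by omega
    have e3 := wsum_even k'
    rw [← e1] at e3
    rw [e2]
    have hmin : (min x (m + 3 - x) ≤ k' + 1 ∧ min y (m + 3 - y) ≤ k') ∨
        (min x (m + 3 - x) ≤ k' ∧ min y (m + 3 - y) ≤ k' + 1) := by omega
    have e4 : 2 ^ (k' + 1) = 2 * 2 ^ k' := by ring
    have e5 : 2 ^ (k' + 2) = 4 * 2 ^ k' := by ring
    rw [e4, e5] at e3
    have hk' : k' + 1 - 1 = k' := by omega
    rw [hk', e4]
    have hp : 1 ≤ 2 ^ k' := Nat.one_le_two_pow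
    rcases hmin with ⟨a1, a2⟩ | ⟨a1, a2⟩
    · have b1 := Nat.pow_le_pow_right (n := 2) (by norm_num) a1
      have b2 := Nat.pow_le_pow_right (n := 2) (by norm_num) a2
      rw [e4] at b1
      omega
    · have b1 := Nat.pow_le_pow_right (n := 2) (by norm_num) a1
      have b2 := Nat.pow_le_pow_right (n := 2) (by norm_num) a2
      rw [e4] at b2
      omega
  · have hne : ¬ Even (m + 3) := Nat.not_even_iff_odd.2 ho
    rw [if_neg hne]
    obtain ⟨k, hk⟩ := ho
    have e2 : (m + 3) / 2 = k := by omega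
    have e3 := wsum_odd k
    rw [← hk] at e3
    rw [e2]
    have e4 : 2 ^ (k + 1) = 2 * 2 ^ k := by ring
    have e5 : 2 ^ (k + 2) = 4 * 2 ^ k := by ring
    rw [e5] at e3
    rw [e4]
    have hp : 2 ≤ 2 ^ k := by
      calc 2 = 2 ^ 1 := by norm_num
        _ ≤ 2 ^ k := Nat.pow_le_pow_right (by norm_num) (by omega)
    have b1 := Nat.pow_le_pow_right (n := 2) (by norm_num) (by omega : min x (m + 3 - x) ≤ k)
    have b2 := Nat.pow_le_pow_right (n := 2) (by norm_num) (by omega : min y (m + 3 - y) ≤ k)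
    omega

/-! ### Complements of strong hub sets -/

/-- Two vertices outside a strong hub set are adjacent. -/
theorem compl_adj (m : ℕ) (U : Set (Fin (m + 3))) (hU : IsStrongHubSet (cycleGraph (m + 3)) U)
    (p : ℤ) (d : ℕ) (hd1 : 2 ≤ d) (hd2 : d + 2 ≤ m + 3) (hp : phi m p ∉ U)
    (hq : phi m (p + d) ∉ U) : False := by
  classical
  have hne : phi m (p + 1) ≠ phi m (p + d + 1) := by
    intro h
    have := phi_inj m _ _ h (by omega) (by omega)
    omega
  obtain ⟨w, _, hw⟩ := hU.2 _ _ hne
  set S : Set (Fin (m + 3)) := {v | ∃ j : ℕ, 1 ≤ j ∧ j < d ∧ v = phi m (p + j)} with hS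
  have h1 : phi m (p + 1) ∈ S := ⟨1, le_rfl, by omega, by simp⟩
  have h2 : phi m (p + d + 1) ∉ S := by
    rintro ⟨j, hj1, hj2, h⟩
    have := phi_inj m _ _ h (by omega) (by omega)
    omega
  obtain ⟨dd, hdd, hf, hs⟩ := w.exists_boundary_dart S h1 h2
  obtain ⟨j, hj1, hj2, hj3⟩ := hf
  have hadj := dd.adj
  rw [hj3] at hadj
  have hmem := Walk.dart_snd_mem_support_of_mem_darts w hdd
  have hcase : dd.snd = phi m p ∨ dd.snd = phi m (p + d) := by
    rcases phi_adj_cases m _ _ hadj with h | h
    · right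
      by_contra hne2
      apply hs
      have : j + 1 ≠ d := by
        intro hh
        apply hne2
        rw [h, ← hh]
        push_cast
        rw [add_assoc]
      exact ⟨j + 1, by omega, by omega, by rw [h]; push_cast; rw [add_assoc]⟩
    · left
      by_contra hne2
      apply hs
      have : j ≠ 1 := by
        intro hh
        apply hne2
        rw [h, hh]
        simp
      exact ⟨j - 1, by omega, by omega, by rw [h]; congr 1; omega⟩
  rcases hcase with h | h
  · have hh := hw _ hmem (by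
      rw [h]; intro h3
      have := phi_inj m _ _ h3 (by omega) (by omega)
      omega) (by
      rw [h]; intro h3
      have := phi_inj m _ _ h3 (by omega) (by omega)
      omega)
    rw [h] at hh
    exact hp hh
  · have hh := hw _ hmem (by
      rw [h]; intro h3
      have := phi_inj m _ _ h3 (by omega) (by omega)
      omega) (by
      rw [h]; intro h3
      have := phi_inj m _ _ h3 (by omega) (by omega)
      omega)
    rw [h] at hh
    exact hq hh

theorem compl_window (m : ℕ) (hm : 1 ≤ m) (U : Set (Fin (m + 3)))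
    (hU : IsStrongHubSet (cycleGraph (m + 3)) U) :
    ∃ s : ℤ, ∀ v, v ∉ U → v = phi m s ∨ v = phi m (s + 1) := by
  classical
  by_cases h : ∃ v, v ∉ U
  swap
  · push Not at h
    exact ⟨0, fun v hv => absurd (h v) hv⟩
  obtain ⟨a, ha⟩ := h
  obtain ⟨p, hp, rfl⟩ := phi_surj m 0 a
  set P : ℤ := 0 + (p : ℕ) with hP
  -- the offsets of the other missing vertices are `1` or `m + 2`
  have key : ∀ v, v ∉ U → v = phi m P ∨ v = phi m (P + 1) ∨ v = phi m (P - 1) := by
    intro v hv
    obtain ⟨d, hd, rfl⟩ := phi_surj m P v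
    by_cases h0 : d = 0
    · left; rw [h0]; simp
    · by_cases h1 : d = 1
      · right; left; rw [h1]; simp
      · by_cases h2 : d = m + 2
        · right; right
          rw [← phi_per m (P - 1), h2]
          congr 1
          push_cast; ring
        · exact (compl_adj m U hU P d (by omega) (by omega) ha hv).elim
  by_cases h1 : phi m (P + 1) ∉ U
  · refine ⟨P, fun v hv => ?_⟩
    rcases key v hv with h | h | h
    · exact Or.inl h
    · exact Or.inr h
    · exfalso
      rw [h] at hv
      -- `P - 1` and `P + 1` are not adjacent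
      have e : P + 1 = (P - 1) + (2 : ℕ) := by push_cast; ring
      rw [e] at h1
      exact compl_adj m U hU (P - 1) 2 le_rfl (by omega) hv h1
  · push Not at h1
    refine ⟨P - 1, fun v hv => ?_⟩
    rcases key v hv with h | h | h
    · right; rw [h]; congr 1; ring
    · rw [h] at hv; exact absurd h1 hv
    · exact Or.inl h

/-- The lower bound. -/
theorem lower (m t : ℕ) (ht : t ∈ hubCoverSet (cycleGraph (m + 3))) : cycleValue (m + 3) ≤ t := by
  classical
  obtain ⟨d, hd, U, hU, hcov⟩ := ht (Pi.single (phi m 0) t) (by simp)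
  have h1 := Reach.weight (wt m) (wt_adj m) hd
  have h2 : ∑ v, (Pi.single (phi m 0) t : Fin (m + 3) → ℕ) v * wt m v = t := by
    rw [Finset.sum_eq_single (phi m 0)]
    · have e : (phi m 0).val = 0 := by
        have := phi_val_int m 0
        rw [Int.zero_emod] at this
        exact_mod_cast this
      simp [wt, e]
    · intro w _ hw
      rw [Pi.single_eq_of_ne hw, zero_mul]
    · simp
  rw [h2] at h1
  refine le_trans ?_ h1
  rcases Nat.eq_zero_or_pos m with hm | hm
  · subst hm
    have : cycleValue (0 + 3) = 1 := by decide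
    rw [this]
    obtain ⟨u, hu⟩ := hU.1
    have h3 := hcov u hu
    have h4 : 1 ≤ wt 0 u := Nat.one_le_two_pow
    calc 1 ≤ d u * wt 0 u := Nat.mul_le_mul h3 h4
      _ ≤ ∑ v, d v * wt 0 v :=
        Finset.single_le_sum (f := fun v => d v * wt 0 v) (fun _ _ => Nat.zero_le _)
          (Finset.mem_univ u)
  · obtain ⟨s, hs⟩ := compl_window m hm U hU
    have h3 := wt_pair m s
    rw [← sum_wt] at h3
    have h4 : ∑ v, wt m v ≤ ∑ v, d v * wt m v + (wt m (phi m s) + wt m (phi m (s + 1))) := by
      have e5 : ∑ v, (if v = phi m s then wt m v else 0) = wt m (phi m s) := by simp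
      have e6 : ∑ v, (if v = phi m (s + 1) then wt m v else 0) = wt m (phi m (s + 1)) := by simp
      rw [← e5, ← e6, ← Finset.sum_add_distrib, ← Finset.sum_add_distrib]
      apply Finset.sum_le_sum
      intro v _
      by_cases hv : v ∈ U
      · have := hcov v hv
        have : wt m v ≤ d v * wt m v := Nat.le_mul_of_pos_left _ this
        omega
      · rcases hs v hv with h | h
        · rw [if_pos h]; omega
        · rw [if_pos h]; omega
    omega

end Pool.Agent.X71.Hub
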