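import Pool.Agent.X71.Hub.Final

/-!
# The cycle graph: parametrisation, strong hub sets, lower bound
-/

namespace Pool.Agent.X71.Hub

open Finset SimpleGraph

/-- The cyclic parametrisation of the vertices of the cycle graph. -/
def phi (m : ℕ) (i : ℤ) : Fin (m + 3) := (Int.cast i : ZMod (m + 3))

theorem phi_eq_iff (m : ℕ) (i j : ℤ) : phi m i = phi m j ↔ i ≡ j [ZMOD (m + 3 : ℕ)] := by
  unfold phi
  exact ZMod.intCast_eq_intCast_iff i j (m + 3)

theorem phi_val (m : ℕ) (v : Fin (m + 3)) : phi m (v.val : ℤ) = v := by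
  unfold phi
  have h : ((v.val : ℕ) : ZMod (m + 3)) = (v : ZMod (m + 3)) := ZMod.natCast_zmod_val (n := m + 3) v
  rw [Int.cast_natCast]
  exact h

theorem phi_adj (m : ℕ) (i : ℤ) : (cycleGraph (m + 3)).Adj (phi m i) (phi m (i + 1)) := by
  rw [cycleGraph_adj]
  right
  show ((Int.cast (i + 1) : ZMod (m + 3)) - (Int.cast i : ZMod (m + 3)) : ZMod (m + 3)) = 1
  push_cast
  ring

theorem zaux1 (n : ℕ) (x v : ZMod n) (h : x - v = 1) : v = x - 1 := by
  rw [← h]; ring

theorem zaux2 (n : ℕ) (x v : ZMod n) (h : v - x = 1) : v = x + 1 := by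
  rw [← h]; ring

theorem phi_adj_cases (m : ℕ) (i : ℤ) (v : Fin (m + 3))
    (h : (cycleGraph (m + 3)).Adj (phi m i) v) : v = phi m (i + 1) ∨ v = phi m (i - 1) := by
  rw [cycleGraph_adj] at h
  rcases h with h | h
  · right
    have h' := zaux1 (m + 3) (Int.cast i) v h
    unfold phi
    push_cast
    exact h'
  · left
    have h' := zaux2 (m + 3) (Int.cast i) v h
    unfold phi
    push_cast
    exact h'

theorem phi_per (m : ℕ) (i : ℤ) : phi m (i + (m + 3 : ℕ)) = phi m i := by
  rw [phi_eq_iff]
  exact Int.add_modEq_right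

/-- Every vertex occurs exactly once in a window of length `m + 3`. -/
theorem phi_surj (m : ℕ) (s : ℤ) (v : Fin (m + 3)) : ∃ i < m + 3, phi m (s + (i : ℕ)) = v := by
  refine ⟨((v.val - s) % (m + 3 : ℕ)).toNat, ?_, ?_⟩
  · have := Int.emod_lt_of_pos (v.val - s) (by positivity : (0 : ℤ) < (m + 3 : ℕ))
    have := Int.emod_nonneg (v.val - s) (by positivity : ((m + 3 : ℕ) : ℤ) ≠ 0)
    omega
  · have h1 := Int.emod_nonneg (v.val - s) (by positivity : ((m + 3 : ℕ) : ℤ) ≠ 0)
    rw [Int.toNat_of_nonneg h1]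
    conv_rhs => rw [← phi_val m v]
    rw [phi_eq_iff]
    have h2 : (v.val - s) % ((m + 3 : ℕ) : ℤ) ≡ v.val - s [ZMOD (m + 3 : ℕ)] := Int.mod_modEq _ _
    have h3 := h2.add_left s
    have e : s + (v.val - s) = v.val := by ring
    rw [e] at h3
    exact h3

theorem phi_inj (m : ℕ) (i j : ℤ) (h : phi m i = phi m j) (h1 : i - j < (m + 3 : ℕ))
    (h2 : j - i < (m + 3 : ℕ)) : i = j := by
  rw [phi_eq_iff] at h
  have h3 := h.dvd
  obtain ⟨k, hk⟩ := h3
  have hk0 : k = 0 := by
    rcases lt_trichotomy k 0 with h0 | h0 | h0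
    · nlinarith
    · exact h0
    · nlinarith
  rw [hk0] at hk
  linarith

theorem phi_full (m : ℕ) (s : ℤ) (c : Fin (m + 3) → ℕ) :
    c = ∑ i ∈ range (m + 3), Pi.single (phi m (s + i)) (c (phi m (s + i))) := by
  funext w
  rw [Finset.sum_apply]
  obtain ⟨i0, hi0, hw⟩ := phi_surj m s w
  rw [Finset.sum_eq_single i0]
  · rw [hw]; simp
  · intro j hj hne
    apply Pi.single_eq_of_ne
    intro h
    rw [← hw] at h
    have := phi_inj m _ _ h (by have := Finset.mem_range.1 hj; omega)
      (by have := Finset.mem_range.1 hj; omega)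
    omega
  · intro h
    exact absurd (Finset.mem_range.2 hi0) h

theorem phi_param (m : ℕ) : CycleParam (cycleGraph (m + 3)) (m + 3) (phi m) where
  adj := phi_adj m
  per := phi_per m
  full := phi_full m

/-! ### Strong hub sets of the cycle -/

/-- The walk along consecutive vertices. -/
def arcWalk (m : ℕ) (a : ℤ) : (k : ℕ) → (cycleGraph (m + 3)).Walk (phi m a) (phi m (a + k))
  | 0 => Walk.nil.copy rfl (by simp)
  | k + 1 => ((arcWalk m a k).concat (phi_adj m (a + k))).copy rfl (by push_cast; rw [add_assoc])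

theorem arcWalk_support (m : ℕ) (a : ℤ) (k : ℕ) :
    (arcWalk m a k).support = (List.range (k + 1)).map (fun j : ℕ => phi m (a + j)) := by
  induction k with
  | zero => simp [arcWalk]
  | succ k ih =>
    rw [arcWalk, Walk.support_copy, Walk.support_concat, ih, List.range_succ (n := k + 1),
      List.map_append]
    simp [add_assoc]

theorem arcWalk_path (m : ℕ) (a : ℤ) (k : ℕ) (hk : k < m + 3) : (arcWalk m a k).IsPath := by
  rw [Walk.isPath_def, arcWalk_support]
  apply List.Nodup.map_on _ List.nodup_range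
  intro x hx y hy h
  have hx' := List.mem_range.1 hx
  have hy' := List.mem_range.1 hy
  have := phi_inj m _ _ h (by omega) (by omega)
  omega

theorem hub_window (m : ℕ) (s : ℤ) :
    IsStrongHubSet (cycleGraph (m + 3)) {v | ∃ j < m + 1, v = phi m (s + (j : ℕ))} := by
  refine ⟨⟨phi m s, 0, by omega, by simp⟩, ?_⟩
  -- it suffices to treat ordered positions
  have key : ∀ p q : ℕ, p < q → q < m + 3 →
      ∃ w : (cycleGraph (m + 3)).Walk (phi m (s + p)) (phi m (s + q)), w.IsPath ∧
        ∀ z ∈ w.support, z ≠ phi m (s + p) → z ≠ phi m (s + q) →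
          ∃ j < m + 1, z = phi m (s + (j : ℕ)) := by
    intro p q hpq hq
    by_cases hq2 : q < m + 2 ∨ p = m + 1
    · have e : s + (p : ℤ) + ((q - p : ℕ) : ℤ) = s + q := by omega
      refine ⟨(arcWalk m (s + p) (q - p)).copy rfl (by rw [e]), ?_, ?_⟩
      · rw [Walk.isPath_copy]
        exact arcWalk_path m _ _ (by omega)
      · intro z hz hz1 hz2
        rw [Walk.support_copy, arcWalk_support] at hz
        obtain ⟨j, hj, rfl⟩ := List.mem_map.1 hz
        have hj' := List.mem_range.1 hj
        have hj0 : j ≠ 0 := by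
          intro h; rw [h] at hz1; simp at hz1
        have hj1 : j ≠ q - p := by
          intro h; rw [h, e] at hz2; exact hz2 rfl
        exact ⟨p + j, by omega, by push_cast; rw [add_assoc]⟩
    · push Not at hq2
      have hq3 : q = m + 2 := by omega
      have e0 : phi m (s - 1) = phi m (s + q) := by
        rw [← phi_per m (s - 1), hq3]
        congr 1
        push_cast; ring
      have e : s - 1 + ((p + 1 : ℕ) : ℤ) = s + p := by push_cast; ring
      refine ⟨((arcWalk m (s - 1) (p + 1)).copy e0 (by rw [e])).reverse, ?_, ?_⟩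
      · rw [Walk.isPath_reverse_iff, Walk.isPath_copy]
        exact arcWalk_path m _ _ (by omega)
      · intro z hz hz1 hz2
        rw [Walk.support_reverse, List.mem_reverse, Walk.support_copy, arcWalk_support] at hz
        obtain ⟨j, hj, rfl⟩ := List.mem_map.1 hz
        have hj' := List.mem_range.1 hj
        have hj0 : j ≠ 0 := by
          intro h; rw [h] at hz2; rw [← e0] at hz2; simp at hz2
        have hj1 : j ≠ p + 1 := by
          intro h; rw [h, e] at hz1; exact hz1 rfl
        exact ⟨j - 1, by omega, by congr 1; omega⟩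
  intro x y hxy
  obtain ⟨p, hp, rfl⟩ := phi_surj m s x
  obtain ⟨q, hq, rfl⟩ := phi_surj m s y
  rcases lt_trichotomy p q with h | h | h
  · exact key p q h hq
  · exact absurd (by rw [h]) hxy
  · obtain ⟨w, hw1, hw2⟩ := key q p h hp
    refine ⟨w.reverse, (Walk.isPath_reverse_iff w).2 hw1, ?_⟩
    intro z hz h1 h2
    rw [Walk.support_reverse, List.mem_reverse] at hz
    exact hw2 z hz h2 h1

theorem hubCoverable_of_cov (m : ℕ) (c : Fin (m + 3) → ℕ) (s : ℤ)
    (h : Can (cycleGraph (m + 3)) c (cov (phi m) s (m + 1))) :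
    HubCoverable (cycleGraph (m + 3)) c := by
  obtain ⟨d, hd, hle⟩ := h
  refine ⟨d, hd, _, hub_window m s, ?_⟩
  rintro u ⟨j, hj, rfl⟩
  refine le_trans ?_ (hle _)
  unfold cov
  rw [Finset.sum_apply]
  refine le_trans ?_ (Finset.single_le_sum (f := fun i : ℕ => (Pi.single (phi m (s + i)) 1 :
    Fin (m + 3) → ℕ) (phi m (s + j))) (fun _ _ => Nat.zero_le _) (Finset.mem_range.2 hj))
  simp

/-- The upper bound for cycles of length at least eight. -/
theorem upper_large (a b : ℕ) (ha : 3 ≤ a) (hb : 2 ≤ b) (hab : a = b ∨ a = b + 1)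
    (c : Fin (a + b + 3) → ℕ) (hc : ∑ v, (c v : ℤ) = 2 ^ (a + 1) + 2 ^ (b + 1) - 3) :
    HubCoverable (cycleGraph (a + b + 3)) c := by
  by_contra hne
  have H := phi_param (a + b)
  have hU : ∀ s l, a + b + 1 ≤ l → l ≤ a + b + 3 →
      ¬ CovSeg (cycleGraph (a + b + 3)) (phi (a + b)) c s l := by
    intro s l h1 h2 h
    apply hne
    apply hubCoverable_of_cov (a + b) c s
    unfold CovSeg at h
    obtain ⟨k, rfl⟩ : ∃ k, l = a + b + 1 + k := ⟨l - (a + b + 1), by omega⟩
    obtain ⟨k', hk'⟩ : ∃ k', a + b + 3 = a + b + 1 + k + k' := ⟨2 - k, by omega⟩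
    have e : c = seg (phi (a + b)) c s (a + b + 1 + k + k') := by
      rw [← hk']
      exact H.full s c
    rw [seg_add] at e
    have h3 : Can (cycleGraph (a + b + 3)) c (cov (phi (a + b)) s (a + b + 1 + k)) := by
      refine h.mono_left ?_
      intro v
      have := congrFun e v
      rw [this]
      simp
    rw [cov_add] at h3
    exact h3.mono_right (le_add_of_nonneg_right (by intro v; simp))
  have D : CycData a b (fun i => c (phi (a + b) i))
      (fun s l => CovSeg (cycleGraph (a + b + 3)) (phi (a + b)) c s l) := by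
    refine ⟨?_, ?_, ?_, ?_, ?_, ?_, ?_, ?_, ?_, hU⟩
    · intro i
      rw [H.per]
    · intro s l
      unfold CovSeg seg cov
      have e : ∀ i : ℕ, phi (a + b) (s + ((a + b + 3 : ℕ) : ℤ) + i) = phi (a + b) (s + i) := by
        intro i
        rw [← H.per (s + i)]
        congr 1
        ring
      simp only [e]
    · intro s
      rw [← hc]
      unfold Q
      have h1 := H.full s c
      have h2 : ∑ v, c v = ∑ i ∈ range (a + b + 3), c (phi (a + b) (s + i)) := by
        conv_lhs => rw [h1]
        simp only [Finset.sum_apply]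
        rw [Finset.sum_comm]
        apply Finset.sum_congr rfl
        intro i _
        rw [Finset.sum_pi_single']
        simp
      have h3 : ((∑ v, c v : ℕ) : ℤ) = ((∑ i ∈ range (a + b + 3), c (phi (a + b) (s + i)) : ℕ) : ℤ) :=
        by rw [h2]
      push_cast at h3
      exact h3.symm
    · intro s l h
      exact covSeg_of_Gf H c h
    · intro s l h
      exact covSeg_of_Gb H c h
    · intro s l h
      exact covSeg_ext_of_Gf H c h
    · intro s l h
      exact covSeg_ext_of_Gb H c h
    · intro s l m h1 h2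
      exact h1.cat h2
    · intro r x y h
      exact covSeg_root H c h
  exact D.contradiction ha hb hab

end Pool.Agent.X71.Hub
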