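import Mathlib

/-!
# Pebbling, strong hub sets and the strong hub cover pebbling number
-/

namespace Pool.Agent.X71.Hub

open Finset

variable {V : Type*} [DecidableEq V]

/-- A pebbling move along the edge `uv`: two pebbles are taken off `u` (which must hold at least
two) and one pebble is put on `v`. -/
def Move (G : SimpleGraph V) (c d : V → ℕ) : Prop :=
  ∃ u v, G.Adj u v ∧ 2 ≤ c u ∧
    d = Function.update (Function.update c u (c u - 2)) v (c v + 1)

/-- Reachability by finitely many pebbling moves. -/
def Reach (G : SimpleGraph V) : (V → ℕ) → (V → ℕ) → Prop :=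
  Relation.ReflTransGen (Move G)

omit [DecidableEq V] in
/-- `U` is a strong hub set: it is nonempty and any two distinct vertices are joined by a path all
of whose internal vertices lie in `U`. -/
def IsStrongHubSet (G : SimpleGraph V) (U : Set V) : Prop :=
  U.Nonempty ∧ ∀ x y : V, x ≠ y →
    ∃ w : G.Walk x y, w.IsPath ∧ ∀ z ∈ w.support, z ≠ x → z ≠ y → z ∈ U

/-- From the configuration `c` one can reach a configuration in which every vertex of some strong
hub set carries a pebble. -/
def HubCoverable (G : SimpleGraph V) (c : V → ℕ) : Prop :=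
  ∃ d, Reach G c d ∧ ∃ U, IsStrongHubSet G U ∧ ∀ u ∈ U, 1 ≤ d u

/-- The set of all `t` such that every configuration with `t` pebbles in total is hub
coverable. -/
def hubCoverSet [Fintype V] (G : SimpleGraph V) : Set ℕ :=
  {t | ∀ c : V → ℕ, ∑ v, c v = t → HubCoverable G c}

/-- `t` is the strong hub cover pebbling number of `G`: the least integer `t` such that every
configuration with `t` pebbles in total is hub coverable. -/
def IsHubCoverPebblingNumber [Fintype V] (G : SimpleGraph V) (t : ℕ) : Prop :=
  IsLeast (hubCoverSet G) t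

/-- The conjectured value of the strong hub cover pebbling number of the cycle on `n` vertices:
`2 ^ k + 2 ^ (k - 1) - 3` for `n = 2 k` and `2 ^ (k + 1) - 3` for `n = 2 k + 1`. -/
def cycleValue (n : ℕ) : ℕ :=
  if Even n then 2 ^ (n / 2) + 2 ^ (n / 2 - 1) - 3 else 2 ^ (n / 2 + 1) - 3

/-! ### Domination by reachable configurations -/

/-- From `c` one can reach a configuration dominating `d`. -/
def Can (G : SimpleGraph V) (c d : V → ℕ) : Prop := ∃ e, Reach G c e ∧ d ≤ e

variable {G : SimpleGraph V}

theorem Move.add {c d : V → ℕ} (h : Move G c d) (s : V → ℕ) : Move G (c + s) (d + s) := by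
  obtain ⟨u, v, hadj, h2, rfl⟩ := h
  refine ⟨u, v, hadj, ?_, ?_⟩
  · simp only [Pi.add_apply]; omega
  · have huv : u ≠ v := hadj.ne
    funext w
    simp only [Pi.add_apply, Function.update_apply]
    by_cases hv : w = v
    · subst hv
      simp only [↓reduceIte]
      omega
    · by_cases hu : w = u
      · subst hu
        simp only [hv, ↓reduceIte]
        omega
      · simp [hv, hu]

theorem Reach.add {c d : V → ℕ} (h : Reach G c d) (s : V → ℕ) : Reach G (c + s) (d + s) := by
  induction h with
  | refl => exact Relation.ReflTransGen.refl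
  | tail _ hm ih => exact Relation.ReflTransGen.tail ih (hm.add s)

theorem Can.of_le {c d : V → ℕ} (h : d ≤ c) : Can G c d := ⟨c, Relation.ReflTransGen.refl, h⟩

theorem Can.rfl' {c : V → ℕ} : Can G c c := Can.of_le le_rfl

theorem Can.add {c d : V → ℕ} (h : Can G c d) (s : V → ℕ) : Can G (c + s) (d + s) := by
  obtain ⟨e, he, hle⟩ := h
  exact ⟨e + s, he.add s, add_le_add hle le_rfl⟩

theorem Can.mono_left {c c' d : V → ℕ} (h : Can G c d) (hc : c ≤ c') : Can G c' d := by
  obtain ⟨e, he, hle⟩ := h
  refine ⟨e + (c' - c), ?_, ?_⟩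
  · have := he.add (c' - c)
    rwa [add_tsub_cancel_of_le hc] at this
  · exact hle.trans (le_add_of_nonneg_right (by intro v; simp))

theorem Can.mono_right {c d d' : V → ℕ} (h : Can G c d) (hd : d' ≤ d) : Can G c d' := by
  obtain ⟨e, he, hle⟩ := h
  exact ⟨e, he, hd.trans hle⟩

theorem Can.trans {c d e : V → ℕ} (h1 : Can G c d) (h2 : Can G d e) : Can G c e := by
  obtain ⟨f, hf, hle⟩ := h1
  obtain ⟨g, hg, hle'⟩ := h2.mono_left hle
  exact ⟨g, hf.trans hg, hle'⟩

theorem Can.add_add {c1 d1 c2 d2 : V → ℕ} (h1 : Can G c1 d1) (h2 : Can G c2 d2) :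
    Can G (c1 + c2) (d1 + d2) := by
  have e1 := h1.add c2
  have e2 := h2.add d1
  rw [add_comm c2, add_comm d2] at e2
  exact e1.trans e2

theorem can_move {u v : V} (h : G.Adj u v) : Can G (Pi.single u 2) (Pi.single v 1) := by
  refine ⟨Pi.single v 1, ?_, le_rfl⟩
  apply Relation.ReflTransGen.single
  refine ⟨u, v, h, by simp, ?_⟩
  have huv : u ≠ v := h.ne
  funext w
  simp only [Function.update_apply, Pi.single_apply]
  by_cases hv : w = v
  · subst hv
    simp [huv.symm]
  · by_cases hu : w = u
    · subst hu
      simp [hv]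
    · simp [hv, hu]

theorem can_moves {u v : V} (h : G.Adj u v) (m : ℕ) :
    Can G (Pi.single u (2 * m)) (Pi.single v m) := by
  induction m with
  | zero => simpa using Can.rfl'
  | succ m ih =>
    rw [Nat.mul_succ, Pi.single_add, Pi.single_add]
    exact ih.add_add (can_move h)

end Pool.Agent.X71.Hub
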