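import Mathlib

/-!
# The greedy evaluation of a path of pebbles

For a sequence `f` of pebble numbers on consecutive vertices of a path, `ev0 g f l` is the number
of pebbles which the first `l` vertices can hand over to the next vertex after covering all of
them with one pebble each (when it is nonnegative), or minus the number of pebbles which the next
vertex must supply (when it is negative); `g` is an initial import.
-/

namespace Pool.Agent.X71.Hub

open Finset

/-- Passing a surplus costs half of it, supplying a deficit costs twice the deficit. -/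
def gg (x : ℤ) : ℤ := if 0 ≤ x then x / 2 else 2 * x

/-- Greedy evaluation with initial carry. -/
def ev0 (g : ℤ) (f : ℕ → ℕ) : ℕ → ℤ
  | 0 => g
  | l + 1 => gg ((f l : ℤ) - 1 + ev0 g f l)

/-- Greedy evaluation. -/
abbrev ev (f : ℕ → ℕ) (l : ℕ) : ℤ := ev0 0 f l

theorem gg_mono {x y : ℤ} (h : x ≤ y) : gg x ≤ gg y := by
  unfold gg
  split_ifs <;> omega

theorem gg_nonneg_iff {x : ℤ} : 0 ≤ gg x ↔ 0 ≤ x := by
  unfold gg
  split_ifs <;> omega

theorem ev0_succ (g : ℤ) (f : ℕ → ℕ) (l : ℕ) :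
    ev0 g f (l + 1) = gg ((f l : ℤ) - 1 + ev0 g f l) := rfl

theorem ev0_shift (g : ℤ) (f : ℕ → ℕ) (l : ℕ) :
    ev0 g f (l + 1) = ev0 (gg ((f 0 : ℤ) - 1 + g)) (fun i => f (i + 1)) l := by
  induction l with
  | zero => simp [ev0]
  | succ l ih =>
    rw [ev0_succ, ih, ev0_succ]

theorem ev0_add (g : ℤ) (f : ℕ → ℕ) (l m : ℕ) :
    ev0 g f (l + m) = ev0 (ev0 g f l) (fun i => f (l + i)) m := by
  induction m with
  | zero => simp [ev0]
  | succ m ih =>
    rw [← add_assoc, ev0_succ, ih, ev0_succ]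

theorem ev0_congr (g : ℤ) {f f' : ℕ → ℕ} {l : ℕ} (h : ∀ i < l, f i = f' i) :
    ev0 g f l = ev0 g f' l := by
  induction l with
  | zero => rfl
  | succ l ih =>
    rw [ev0_succ, ev0_succ, ih (fun i hi => h i (by omega)), h l (by omega)]

theorem ev0_mono {g g' : ℤ} {f f' : ℕ → ℕ} {l : ℕ} (hg : g ≤ g') (h : ∀ i < l, f i ≤ f' i) :
    ev0 g f l ≤ ev0 g' f' l := by
  induction l with
  | zero => exact hg
  | succ l ih =>
    rw [ev0_succ, ev0_succ]
    apply gg_mono
    have h1 := ih (fun i hi => h i (by omega))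
    have h2 : (f l : ℤ) ≤ f' l := by exact_mod_cast h l (by omega)
    linarith

/-- Initial carry `g ≥ 0` is the same as `g` extra pebbles at the first vertex. -/
theorem ev0_carry (g : ℕ) (f : ℕ → ℕ) (l : ℕ) :
    ev0 g f (l + 1) = ev0 0 (fun i => if i = 0 then f 0 + g else f i) (l + 1) := by
  rw [ev0_shift, ev0_shift]
  simp only [↓reduceIte, Nat.cast_add, add_zero]
  have : ((f 0 : ℤ) - 1 + (g : ℤ)) = (f 0 : ℤ) + g - 1 := by ring
  rw [this]
  apply ev0_congr
  intro i _
  simp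

/-- The basic bound: large total implies large export. -/
theorem ev_bound (f : ℕ → ℕ) (l : ℕ) :
    (0 ≤ ev f l → (∑ i ∈ range l, (f i : ℤ)) ≤ 2 ^ l * (ev f l + 2) - 2) ∧
      (ev f l < 0 → 2 * (∑ i ∈ range l, (f i : ℤ)) ≤ 2 ^ (l + 1) - 2 + ev f l) := by
  induction l with
  | zero => simp [ev, ev0]
  | succ l ih =>
    obtain ⟨ih1, ih2⟩ := ih
    have hS : 0 ≤ ∑ i ∈ range l, (f i : ℤ) := Finset.sum_nonneg (fun _ _ => by positivity)
    simp only [ev] at *
    rw [Finset.sum_range_succ, ev0_succ]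
    set G := ev0 0 f l with hG
    set S := ∑ i ∈ range l, (f i : ℤ) with hSdef
    have hP : (1 : ℤ) ≤ 2 ^ l := one_le_pow₀ (by norm_num)
    have hf : (0 : ℤ) ≤ f l := by positivity
    set u : ℤ := (f l : ℤ) with hu
    set P : ℤ := 2 ^ l with hPdef
    have e1 : (2 : ℤ) ^ (l + 1) = 2 * P := by rw [hPdef]; ring
    have e2 : (2 : ℤ) ^ (l + 1 + 1) = 4 * P := by rw [hPdef]; ring
    rw [e1] at ih2
    rw [e1, e2]
    unfold gg
    by_cases hx : 0 ≤ u - 1 + G
    · rw [if_pos hx]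
      have hd1 : u - 1 + G ≤ 2 * ((u - 1 + G) / 2) + 1 := by omega
      have hd2 : 0 ≤ (u - 1 + G) / 2 := by omega
      set G' := (u - 1 + G) / 2 with hG'
      refine ⟨fun _ => ?_, fun h => by omega⟩
      by_cases hG0 : 0 ≤ G
      · have h1 := ih1 hG0
        nlinarith [mul_nonneg (sub_nonneg.2 hP) hf, mul_nonneg (by linarith : (0:ℤ) ≤ P) (sub_nonneg.2 hd1)]
      · push Not at hG0
        have h2 := ih2 hG0
        nlinarith [mul_nonneg (by linarith : (0:ℤ) ≤ P) hd2]
    · rw [if_neg hx]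
      push Not at hx
      refine ⟨fun h => by omega, fun _ => ?_⟩
      by_cases hG0 : 0 ≤ G
      · have h1 := ih1 hG0
        have hG1 : G = 0 := by omega
        have hu0 : u = 0 := by omega
        rw [hG1] at h1 ⊢
        rw [hu0]
        linarith
      · push Not at hG0
        have h2 := ih2 hG0
        linarith

theorem ev_le_zero {f : ℕ → ℕ} {l : ℕ} (h : ev f l ≤ 0) :
    (∑ i ∈ range l, (f i : ℤ)) ≤ 2 ^ (l + 1) - 2 := by
  obtain ⟨h1, h2⟩ := ev_bound f l
  rcases lt_or_eq_of_le h with h0 | h0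
  · have h3 := h2 h0
    have hP : (1 : ℤ) ≤ 2 ^ l := one_le_pow₀ (by norm_num)
    have e1 : (2 : ℤ) ^ (l + 1) = 2 * 2 ^ l := by ring
    rw [e1] at h3 ⊢
    linarith
  · have h3 := h1 h0.ge
    rw [h0] at h3
    have e1 : (2 : ℤ) ^ (l + 1) = 2 * 2 ^ l := by ring
    rw [e1]
    linarith

theorem ev_neg {f : ℕ → ℕ} {l : ℕ} (h : ev f l < 0) :
    2 * (∑ i ∈ range l, (f i : ℤ)) ≤ 2 ^ (l + 1) - 2 + ev f l := (ev_bound f l).2 h

/-- Lower bound for the evaluation. -/
theorem ev_ge (f : ℕ → ℕ) (l : ℕ) : -(2 ^ (l + 1) - 2 : ℤ) ≤ ev f l := by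
  by_cases h : ev f l < 0
  · have h1 := ev_neg h
    have hS : 0 ≤ ∑ i ∈ range l, (f i : ℤ) := Finset.sum_nonneg (fun _ _ => by positivity)
    linarith
  · push Not at h
    have hP : (1 : ℤ) ≤ 2 ^ l := one_le_pow₀ (by norm_num)
    have e1 : (2 : ℤ) ^ (l + 1) = 2 * 2 ^ l := by ring
    rw [e1]
    linarith

/-- Improved bound when the first vertex holds at most one pebble. -/
theorem ev_first (f : ℕ → ℕ) (h0 : f 0 ≤ 1) (m : ℕ) :
    0 ≤ ev f (m + 1) →
      (∑ i ∈ range (m + 1), (f i : ℤ)) ≤ 2 ^ m * (ev f (m + 1) + 2) ∨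
        (1 ≤ m ∧ (∑ i ∈ range (m + 1), (f i : ℤ)) ≤ 2 ^ (m + 1) + 2 * ev f (m + 1)) := by
  induction m with
  | zero =>
    intro h
    left
    simp only [zero_add, Finset.range_one, Finset.sum_singleton, pow_zero, one_mul]
    have : (f 0 : ℤ) ≤ 1 := by exact_mod_cast h0
    simp only [zero_add] at h
    linarith
  | succ m ih =>
    intro h
    have hS : 0 ≤ ∑ i ∈ range (m + 1), (f i : ℤ) := Finset.sum_nonneg (fun _ _ => by positivity)
    have ihn := ev_bound f (m + 1)
    simp only [ev] at *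
    rw [Finset.sum_range_succ]
    rw [ev0_succ] at h ⊢
    set G := ev0 0 f (m + 1) with hG
    set S := ∑ i ∈ range (m + 1), (f i : ℤ) with hSdef
    have hP : (1 : ℤ) ≤ 2 ^ m := one_le_pow₀ (by norm_num)
    have hf : (0 : ℤ) ≤ f (m + 1) := by positivity
    set u : ℤ := (f (m + 1) : ℤ) with hu
    set P : ℤ := 2 ^ m with hPdef
    have e1 : (2 : ℤ) ^ (m + 1) = 2 * P := by rw [hPdef]; ring
    have e2 : (2 : ℤ) ^ (m + 1 + 1) = 4 * P := by rw [hPdef]; ring
    rw [e2] at ihn
    rw [e1] at ih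
    rw [e1, e2]
    have hx : 0 ≤ u - 1 + G := gg_nonneg_iff.1 h
    have hgg : gg (u - 1 + G) = (u - 1 + G) / 2 := by unfold gg; rw [if_pos hx]
    rw [hgg]
    have hd1 : u - 1 + G ≤ 2 * ((u - 1 + G) / 2) + 1 := by omega
    have hd2 : 0 ≤ (u - 1 + G) / 2 := by omega
    set G' := (u - 1 + G) / 2 with hG'
    by_cases hG0 : 0 ≤ G
    · rcases ih hG0 with h1 | ⟨hm, h1⟩
      · left
        nlinarith [mul_nonneg (sub_nonneg.2 hP) hf, mul_nonneg (by linarith : (0:ℤ) ≤ P) (sub_nonneg.2 hd1)]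
      · left
        have hP2 : (2 : ℤ) ≤ P := by
          rw [hPdef]
          calc (2 : ℤ) = 2 ^ 1 := by norm_num
            _ ≤ 2 ^ m := pow_le_pow_right₀ (by norm_num) hm
        nlinarith [mul_nonneg (sub_nonneg.2 hP2) hd2]
    · right
      push Not at hG0
      have h2 := ihn.2 hG0
      refine ⟨by omega, ?_⟩
      linarith

theorem ev_first_le {f : ℕ → ℕ} (h0 : f 0 ≤ 1) {l : ℕ} (hl : 1 ≤ l) (h : ev f l ≤ 0) :
    (∑ i ∈ range l, (f i : ℤ)) ≤ 2 ^ l := by
  obtain ⟨m, rfl⟩ : ∃ m, l = m + 1 := ⟨l - 1, by omega⟩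
  rcases lt_or_eq_of_le h with h1 | h1
  · have h2 := ev_neg h1
    have e1 : (2 : ℤ) ^ (m + 1 + 1) = 2 * 2 ^ (m + 1) := by ring
    rw [e1] at h2
    linarith
  · rcases ev_first f h0 m h1.ge with h2 | ⟨_, h2⟩
    · rw [h1] at h2
      have e1 : (2 : ℤ) ^ (m + 1) = 2 ^ m * (0 + 2) := by ring
      rw [e1]
      exact h2
    · rw [h1] at h2
      linarith

/-- The reversed sequence. -/
def rev (f : ℕ → ℕ) (l : ℕ) : ℕ → ℕ := fun i => f (l - 1 - i)

theorem rev_sum (f : ℕ → ℕ) (l : ℕ) :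
    ∑ i ∈ range l, (rev f l i : ℤ) = ∑ i ∈ range l, (f i : ℤ) := by
  unfold rev
  exact Finset.sum_range_reflect (fun i => (f i : ℤ)) l

theorem ev_rev_succ (f : ℕ → ℕ) (l : ℕ) :
    ev (rev f (l + 1)) (l + 1) = ev0 (gg ((f l : ℤ) - 1)) (rev f l) l := by
  simp only [ev]
  rw [ev0_shift]
  have : rev f (l + 1) 0 = f l := by simp [rev]
  rw [this, add_zero]
  apply ev0_congr
  intro i hi
  unfold rev
  congr 1
  omega

/-- Two sided bound. -/
theorem ev_two (f : ℕ → ℕ) (l : ℕ) (h1 : ev f l ≤ 0) (h2 : ev (rev f l) l ≤ 0) :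
    (∑ i ∈ range l, (f i : ℤ)) ≤ 2 ^ l := by
  induction l with
  | zero => simp
  | succ l ih =>
    have hP : (1 : ℤ) ≤ 2 ^ l := one_le_pow₀ (by norm_num)
    have hS : 0 ≤ ∑ i ∈ range l, (f i : ℤ) := Finset.sum_nonneg (fun _ _ => by positivity)
    have e1 : (2 : ℤ) ^ (l + 1) = 2 * 2 ^ l := by ring
    have hx : (f l : ℤ) - 1 + ev0 0 f l ≤ 1 := by
      simp only [ev] at h1
      rw [ev0_succ] at h1
      unfold gg at h1
      split_ifs at h1 <;> omega
    rcases lt_or_ge (ev0 0 f l) 0 with hG | hG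
    · have h3 := ev_neg (f := f) (l := l) hG
      rw [Finset.sum_range_succ, e1]
      simp only [ev] at h3
      rw [e1] at h3
      linarith
    · by_cases hu : f l ≤ 1
      · have h4 : rev f (l + 1) 0 ≤ 1 := by simpa [rev] using hu
        have h5 := ev_first_le h4 (by omega) h2
        rw [rev_sum] at h5
        exact h5
      · have hu2 : f l = 2 := by omega
        have hG0 : ev0 0 f l = 0 := by omega
        have h6 : ev (rev f l) l ≤ 0 := by
          rw [ev_rev_succ, hu2] at h2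
          have : gg (((2 : ℕ) : ℤ) - 1) = 0 := by unfold gg; norm_num
          rw [this] at h2
          exact h2
        have h7 := ih (by simp only [ev]; omega) h6
        rw [Finset.sum_range_succ, hu2, e1]
        rcases Nat.eq_zero_or_pos l with hl | hl
        · subst hl
          simp
        · have : (2 : ℤ) ≤ 2 ^ l := by
            calc (2 : ℤ) = 2 ^ 1 := by norm_num
              _ ≤ 2 ^ l := pow_le_pow_right₀ (by norm_num) hl
          push_cast
          linarith

/-- Second two sided bound. -/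
theorem ev_two' (f : ℕ → ℕ) (l : ℕ) (h1 : ev f l ≤ 1) (h2 : ev (rev f l) l ≤ 0) :
    (∑ i ∈ range l, (f i : ℤ)) ≤ 2 ^ l + 2 := by
  rcases l with _ | l
  · simp
  · have hP : (1 : ℤ) ≤ 2 ^ l := one_le_pow₀ (by norm_num)
    have hS : 0 ≤ ∑ i ∈ range l, (f i : ℤ) := Finset.sum_nonneg (fun _ _ => by positivity)
    have e1 : (2 : ℤ) ^ (l + 1) = 2 * 2 ^ l := by ring
    have hx : (f l : ℤ) - 1 + ev0 0 f l ≤ 3 := by
      simp only [ev] at h1
      rw [ev0_succ] at h1
      unfold gg at h1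
      split_ifs at h1 <;> omega
    rcases lt_or_ge (ev0 0 f l) 0 with hG | hG
    · have h3 := ev_neg (f := f) (l := l) hG
      rw [Finset.sum_range_succ, e1]
      simp only [ev] at h3
      rw [e1] at h3
      linarith
    · by_cases hu : f l ≤ 1
      · have h4 : rev f (l + 1) 0 ≤ 1 := by simpa [rev] using hu
        have h5 := ev_first_le h4 (by omega) h2
        rw [rev_sum] at h5
        linarith
      · have h6 : ev (rev f l) l ≤ 0 := by
          rw [ev_rev_succ] at h2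
          refine le_trans ?_ h2
          apply ev0_mono _ (fun i _ => le_refl _)
          apply gg_nonneg_iff.2
          have : (2 : ℤ) ≤ f l := by exact_mod_cast (by omega : 2 ≤ f l)
          linarith
        have h7 := ev_le_zero h6
        rw [rev_sum] at h7
        rw [Finset.sum_range_succ, e1]
        rw [e1] at h7
        linarith

end Pool.Agent.X71.Hub
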