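import Pool.Agent.X71.Hub.Main

/-!
# The main counting argument, conclusion
-/

namespace Pool.Agent.X71.Hub

open Finset

theorem sum_six {N : ℕ} (f : ℕ → ℤ) (hf : ∀ i, 0 ≤ f i) {i1 i2 i3 i4 i5 i6 : ℕ}
    (h12 : i1 < i2) (h23 : i2 < i3) (h34 : i3 < i4) (h45 : i4 < i5) (h56 : i5 < i6)
    (h6 : i6 < N) :
    f i1 + f i2 + f i3 + f i4 + f i5 + f i6 ≤ ∑ i ∈ range N, f i := by
  have hsub : ({i1, i2, i3, i4, i5, i6} : Finset ℕ) ⊆ range N := by
    intro x hx
    simp only [Finset.mem_insert, Finset.mem_singleton] at hx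
    rw [Finset.mem_range]
    omega
  have h1 := Finset.sum_le_sum_of_subset_of_nonneg (f := f) hsub (fun i _ _ => hf i)
  have h2 : ∑ i ∈ ({i1, i2, i3, i4, i5, i6} : Finset ℕ), f i =
      f i1 + f i2 + f i3 + f i4 + f i5 + f i6 := by
    rw [Finset.sum_insert, Finset.sum_insert, Finset.sum_insert, Finset.sum_insert,
      Finset.sum_insert, Finset.sum_singleton]
    · ring
    all_goals
      simp only [Finset.mem_insert, Finset.mem_singleton]
      omega
  linarith

namespace CycData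

variable {a b : ℕ} {P : ℤ → ℕ} {C : ℤ → ℕ → Prop} (D : CycData a b P C)

include D

/-- The last step: a very heavy vertex. -/
theorem heavy (ha : 3 ≤ a) (hb : 2 ≤ b) (hab : a = b ∨ a = b + 1) (r : ℤ)
    (h1 : ¬ Cv P (r + 1) a) (h2 : Cv P r a) : False := by
  have hA : (8 : ℤ) ≤ 2 ^ a := by
    calc (8 : ℤ) = 2 ^ 3 := by norm_num
      _ ≤ 2 ^ a := pow_le_pow_right₀ (by norm_num) ha
  have eA : (2 : ℤ) ^ (a + 1) = 2 * 2 ^ a := by ring
  have eB : (2 : ℤ) ^ (b + 1) = 2 * 2 ^ b := by ring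
  have h3 : ¬ Cv P (r - b) b := by
    intro h
    rw [← D.Cv_per] at h
    have e : r - (b : ℤ) + ((a + b + 3 : ℕ) : ℤ) = r + a + (3 : ℕ) := by push_cast; ring
    rw [e] at h
    exact D.pair_no ha hb r 3 (by omega) h2 h
  have N0 := D.ntypeL h1 h3
  have h4 : ¬ Cv P (r + a + 1) b := by
    intro h
    have e : r + (a : ℤ) + 1 = r + a + (1 : ℕ) := by push_cast; ring
    rw [e] at h
    exact D.pair_no ha hb r 1 (by omega) h2 h
  have h5 : (P (r + a + 1) : ℤ) + P (r + a + 2) ≤ 2 ^ b - 2 := by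
    unfold Cv at h4
    push Not at h4
    have q := Gf_neg h4.1
    obtain ⟨b', rfl⟩ : ∃ b', b = 2 + b' := ⟨b - 2, by omega⟩
    have e2 : Q P (r + a + 1) (2 + b') = Q P (r + a + 1) 1 + Q P (r + a + 2) 1 +
        Q P (r + a + 3) b' := by
      rw [Q_add, show (2 : ℕ) = 1 + 1 from rfl, Q_add]
      have f1 : r + (a : ℤ) + 1 + ((1 : ℕ) : ℤ) = r + a + 2 := by push_cast; ring
      have f2 : r + (a : ℤ) + 1 + ((1 + 1 : ℕ) : ℤ) = r + a + 3 := by push_cast; ring
      rw [f1, f2]
    rw [e2, Q_one, Q_one] at q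
    have := Q_nonneg P (r + a + 3) b'
    have h6 := h4.1
    rw [eB] at q
    omega
  -- total
  have tot := D.tot r
  have e0 : a + b + 3 = 1 + a + 1 + 1 + b := by ring
  have tot' : (P r : ℤ) + P (r + a + 1) + P (r + a + 2) ≤ 2 ^ (a + 1) + 2 ^ (b + 1) - 3 := by
    rw [← tot, e0, Q_add, Q_add, Q_add, Q_add, Q_one, Q_one, Q_one]
    have f1 : r + ((1 + a : ℕ) : ℤ) = r + a + 1 := by push_cast; ring
    have f2 : r + ((1 + a + 1 : ℕ) : ℤ) = r + a + 2 := by push_cast; ring
    rw [f1, f2]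
    have := Q_nonneg P (r + (1 : ℕ)) a
    have := Q_nonneg P (r + (1 + a + 1 + 1 : ℕ)) b
    linarith
  rw [eA, eB] at N0 tot'
  obtain ⟨a', rfl⟩ : ∃ a', a = a' + 1 := ⟨a - 1, by omega⟩
  have eA' : (2 : ℤ) ^ (a' + 1) = 2 * 2 ^ a' := by ring
  -- the root covers both sides up to distance `a'`
  have cR : C (r - a') (a' + 1 + a') := by
    apply D.root'
    linarith
  rcases hab with hab | hab
  · rw [← hab] at N0 tot' h5
    by_cases k1 : 3 ≤ P (r + (a' + 1 : ℕ) + 1)
    · have c1 := D.three_left k1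
      have c2 := D.cat' cR c1 (by push_cast; ring)
      exact D.nope c2 (by omega) (by omega)
    by_cases k2 : 3 ≤ P (r + (a' + 1 : ℕ) + 2)
    · have c1 := D.three_right k2
      have c1' : C (r - a' - 2) 2 := by
        rw [← D.cper]
        refine D.congr c1 ?_ rfl
        rw [← hab]
        push_cast; ring
      have c2 := D.cat' c1' cR (by push_cast; ring)
      exact D.nope c2 (by omega) (by omega)
    push Not at k1 k2
    have k1' : (P (r + (a' + 1 : ℕ) + 1) : ℤ) ≤ 2 := by exact_mod_cast (by omega)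
    have k2' : (P (r + (a' + 1 : ℕ) + 2) : ℤ) ≤ 2 := by exact_mod_cast (by omega)
    by_cases k3 : 1 ≤ P (r + (a' + 1 : ℕ) + 1)
    · have c1 : C (r - a') (a' + 1 + (a' + 1)) := by
        apply D.root'
        have : (2 : ℤ) ^ (a' + 1 + 1) = 2 * 2 ^ (a' + 1) := by ring
        rw [this]
        linarith
      have c2 := D.cat' c1 (D.occ k3) (by push_cast; ring)
      exact D.nope c2 (by omega) (by omega)
    by_cases k4 : 1 ≤ P (r + (a' + 1 : ℕ) + 2)
    · have c1 : C (r - (a' + 1 : ℕ)) (a' + 1 + 1 + a') := by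
        apply D.root'
        have : (2 : ℤ) ^ (a' + 1 + 1) = 2 * 2 ^ (a' + 1) := by ring
        rw [this]
        linarith
      have c0 : C (r - (a' + 1 : ℕ) - 1) 1 := by
        rw [← D.cper]
        refine D.congr (D.occ k4) ?_ rfl
        rw [← hab]
        push_cast; ring
      have c2 := D.cat' c0 c1 (by push_cast; ring)
      exact D.nope c2 (by omega) (by omega)
    · have z1 : P (r + (a' + 1 : ℕ) + 1) = 0 := by omega
      have z2 : P (r + (a' + 1 : ℕ) + 2) = 0 := by omega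
      rw [z1, z2] at N0 tot'
      push_cast at N0 tot'
      linarith
  · have hb' : b = a' := by omega
    rw [hb'] at N0 tot' h5
    by_cases k1 : 1 ≤ P (r + (a' + 1 : ℕ))
    · have c2 := D.cat' cR (D.occ k1) (by push_cast; ring)
      exact D.nope c2 (by omega) (by omega)
    by_cases k2 : 1 ≤ P (r + (a' + 1 : ℕ) + 2)
    · have c0 : C (r - a' - 1) 1 := by
        rw [← D.cper]
        refine D.congr (D.occ k2) ?_ rfl
        rw [hb']
        push_cast; ring
      have c2 := D.cat' c0 cR (by push_cast; ring)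
      exact D.nope c2 (by omega) (by omega)
    by_cases k3 : 3 ≤ P (r + (a' + 1 : ℕ) + 1)
    · have c1 := D.three_left k3
      have c2 := D.cat' cR c1 (by push_cast; ring)
      exact D.nope c2 (by omega) (by omega)
    have z2 : P (r + (a' + 1 : ℕ) + 2) = 0 := by omega
    have k3' : (P (r + (a' + 1 : ℕ) + 1) : ℤ) ≤ 2 := by exact_mod_cast (by omega)
    rw [z2] at N0 tot'
    by_cases k4 : 1 ≤ P (r + (a' + 1 : ℕ) + 1)
    · obtain ⟨a'', rfl⟩ : ∃ a'', a' = a'' + 1 := ⟨a' - 1, by omega⟩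
      have eA'' : (2 : ℤ) ^ (a'' + 1 + 1) = 4 * 2 ^ a'' := by ring
      have eA3 : (2 : ℤ) ^ (a'' + 1) = 2 * 2 ^ a'' := by ring
      have c1 : C (r - a'') (a'' + 1 + (a'' + 1 + 1)) := by
        apply D.root'
        have : (2 : ℤ) ^ (a'' + 1 + 1 + 1) = 8 * 2 ^ a'' := by ring
        rw [this]
        rw [eA''] at N0 hA
        rw [eA3] at N0 ⊢
        push_cast at N0
        linarith
      have c2 := D.cat' c1 (D.occ k4) (by push_cast; ring)
      exact D.nope c2 (by omega) (by omega)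
    · have z1 : P (r + (a' + 1 : ℕ) + 1) = 0 := by omega
      rw [z1] at N0 tot'
      push_cast at N0 tot'
      linarith

theorem contradiction (ha : 3 ≤ a) (hb : 2 ≤ b) (hab : a = b ∨ a = b + 1) : False := by
  classical
  obtain ⟨i0, hi0⟩ := D.exists_Cv ha hab
  -- the last start of the run
  obtain ⟨i, hi, hi1⟩ : ∃ i, Cv P i a ∧ ¬ Cv P (i + 1) a := by
    by_contra hne
    push Not at hne
    have h1 : ∀ m : ℕ, Cv P (i0 + m) a := by
      intro m
      induction m with
      | zero => simpa using hi0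
      | succ m ih =>
        have := hne _ ih
        push_cast
        rwa [← add_assoc]
    exact D.adj_no ha hb hab i0 hi0 (h1 a)
  -- the first start of the run
  have hex : ∃ d : ℕ, ¬ Cv P (i - d - 1) a := by
    refine ⟨a - 1, fun h => ?_⟩
    have e : i - ((a - 1 : ℕ) : ℤ) - 1 = i - a := by omega
    rw [e] at h
    refine D.adj_no ha hb hab (i - a) h ?_
    rwa [sub_add_cancel]
  obtain ⟨δ, hδ1, hδ2⟩ : ∃ d : ℕ, ¬ Cv P (i - d - 1) a ∧ ∀ e < d, Cv P (i - e - 1) a :=
    ⟨Nat.find hex, Nat.find_spec hex, fun e he => by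
      have := Nat.find_min hex he
      push Not at this
      exact this⟩
  have hδa : δ ≤ a - 1 := by
    by_contra hne
    have := hδ2 (a - 1) (by omega)
    have e : i - ((a - 1 : ℕ) : ℤ) - 1 = i - a := by omega
    rw [e] at this
    refine D.adj_no ha hb hab (i - a) this ?_
    rwa [sub_add_cancel]
  have hi' : Cv P (i - δ) a := by
    rcases Nat.eq_zero_or_pos δ with h0 | h0
    · rw [h0]; simpa using hi
    · have := hδ2 (δ - 1) (by omega)
      have e : i - ((δ - 1 : ℕ) : ℤ) - 1 = i - δ := by omega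
      rwa [e] at this
  by_cases hδ3 : δ + 1 < a
  · -- two heavy pairs
    have n1 : (2 : ℤ) ^ (a + 1) + 2 ^ (b + 1) - 2 - P (i + a + 1) ≤
        2 * (P (i - 1) + P i) := by
      have g1 : ¬ Cv P (i + a + 1 - a) a := by
        have e : i + (a : ℤ) + 1 - a = i + 1 := by ring
        rwa [e]
      have g2 : ¬ Cv P (i + a + 1 + 1) b := by
        intro h
        have e : i + (a : ℤ) + 1 + 1 = i + a + (2 : ℕ) := by push_cast; ring
        rw [e] at h
        exact D.pair_no ha hb i 2 (by omega) hi h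
      have := D.ntypeR g1 g2
      have e1 : P (i + a + 1 + b + 1) = P (i - 1) := D.per_eq (by push_cast; ring)
      have e2 : P (i + a + 1 + b + 2) = P i := D.per_eq (by push_cast; ring)
      rwa [e1, e2] at this
    have n2 : (2 : ℤ) ^ (a + 1) + 2 ^ (b + 1) - 2 - P (i - δ - 2) ≤
        2 * (P (i - δ + a - 1) + P (i - δ + a)) := by
      have g1 : ¬ Cv P (i - δ - 2 + 1) a := by
        have e : i - (δ : ℤ) - 2 + 1 = i - δ - 1 := by ring
        rwa [e]
      have g2 : ¬ Cv P (i - δ - 2 - b) b := by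
        intro h
        rw [← D.Cv_per] at h
        have e : i - (δ : ℤ) - 2 - b + ((a + b + 3 : ℕ) : ℤ) = i - δ + a + (1 : ℕ) := by
          push_cast; ring
        rw [e] at h
        exact D.pair_no ha hb (i - δ) 1 (by omega) hi' h
      have := D.ntypeL g1 g2
      have e1 : i - (δ : ℤ) - 2 + a + 1 = i - δ + a - 1 := by ring
      have e2 : i - (δ : ℤ) - 2 + a + 2 = i - δ + a := by ring
      rwa [e1, e2] at this
    have tot := D.tot (i - 1)
    unfold Q at tot
    have h6 := sum_six (N := a + b + 3) (fun j => (P (i - 1 + j) : ℤ)) (fun _ => by positivity)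
      (i1 := 0) (i2 := 1) (i3 := a - δ) (i4 := a - δ + 1) (i5 := a + 2) (i6 := a + b + 2 - δ)
      (by omega) (by omega) (by omega) (by omega) (by rcases hab with h | h <;> omega) (by omega)
    rw [tot] at h6
    have f0 : i - 1 + ((0 : ℕ) : ℤ) = i - 1 := by simp
    have f1 : i - 1 + ((1 : ℕ) : ℤ) = i := by simp
    have f2 : i - 1 + ((a - δ : ℕ) : ℤ) = i - δ + a - 1 := by omega
    have f3 : i - 1 + ((a - δ + 1 : ℕ) : ℤ) = i - δ + a := by omega
    have f4 : i - 1 + ((a + 2 : ℕ) : ℤ) = i + a + 1 := by push_cast; ring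
    have f5 : P (i - 1 + ((a + b + 2 - δ : ℕ) : ℤ)) = P (i - δ - 2) :=
      D.per_eq (by omega)
    rw [f0, f1, f2, f3, f4, f5] at h6
    have p5 : (0 : ℤ) ≤ P (i + a + 1) := by positivity
    have p6 : (0 : ℤ) ≤ P (i - δ - 2) := by positivity
    linarith
  · exact D.heavy ha hb hab i hi1 hi

end CycData

end Pool.Agent.X71.Hub
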