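import Pool.Agent.X71.Hub.Sound

/-!
# The main counting argument
-/

namespace Pool.Agent.X71.Hub

open Finset

/-- Number of pebbles on a segment. -/
def Q (P : ℤ → ℕ) (s : ℤ) (l : ℕ) : ℤ := ∑ i ∈ range l, (P (s + i) : ℤ)

theorem Q_nonneg (P : ℤ → ℕ) (s : ℤ) (l : ℕ) : 0 ≤ Q P s l :=
  Finset.sum_nonneg (fun _ _ => by positivity)

theorem Q_add (P : ℤ → ℕ) (s : ℤ) (l m : ℕ) : Q P s (l + m) = Q P s l + Q P (s + l) m := by
  unfold Q
  rw [Finset.sum_range_add]
  congr 1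
  apply Finset.sum_congr rfl
  intro i _
  push_cast
  rw [add_assoc]

theorem Q_one (P : ℤ → ℕ) (s : ℤ) : Q P s 1 = P s := by simp [Q]

theorem Gb_eq (P : ℤ → ℕ) (s : ℤ) (l : ℕ) : Gb P s l = ev (rev (fun i => P (s + i)) l) l := by
  unfold Gb
  apply ev0_congr
  intro i hi
  unfold rev
  congr 1
  omega

theorem Gb_sum (P : ℤ → ℕ) (s : ℤ) (l : ℕ) :
    ∑ i ∈ range l, (rev (fun i => P (s + i)) l i : ℤ) = Q P s l := rev_sum _ _

theorem Q_of_Gf {P : ℤ → ℕ} {s : ℤ} {l : ℕ} (h : Gf P s l ≤ 0) : Q P s l ≤ 2 ^ (l + 1) - 2 :=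
  ev_le_zero h

theorem Q_of_Gb {P : ℤ → ℕ} {s : ℤ} {l : ℕ} (h : Gb P s l ≤ 0) : Q P s l ≤ 2 ^ (l + 1) - 2 := by
  rw [Gb_eq] at h
  have := ev_le_zero h
  rwa [Gb_sum] at this

theorem Gf_neg {P : ℤ → ℕ} {s : ℤ} {l : ℕ} (h : Gf P s l < 0) :
    2 * Q P s l ≤ 2 ^ (l + 1) - 2 + Gf P s l := ev_neg h

theorem Gb_neg {P : ℤ → ℕ} {s : ℤ} {l : ℕ} (h : Gb P s l < 0) :
    2 * Q P s l ≤ 2 ^ (l + 1) - 2 + Gb P s l := by
  rw [Gb_eq] at h ⊢
  have := ev_neg h
  rwa [Gb_sum] at this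

theorem Gf_ge (P : ℤ → ℕ) (s : ℤ) (l : ℕ) : -(2 ^ (l + 1) - 2 : ℤ) ≤ Gf P s l := ev_ge _ _

theorem Gb_ge (P : ℤ → ℕ) (s : ℤ) (l : ℕ) : -(2 ^ (l + 1) - 2 : ℤ) ≤ Gb P s l := ev_ge _ _

theorem Q_two {P : ℤ → ℕ} {s : ℤ} {l : ℕ} (h1 : Gf P s l ≤ 0) (h2 : Gb P s l ≤ 0) :
    Q P s l ≤ 2 ^ l := by
  rw [Gb_eq] at h2
  exact ev_two _ _ h1 h2

theorem Q_two' {P : ℤ → ℕ} {s : ℤ} {l : ℕ} (h1 : Gf P s l ≤ 1) (h2 : Gb P s l ≤ 0) :
    Q P s l ≤ 2 ^ l + 2 := by
  rw [Gb_eq] at h2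
  exact ev_two' _ _ h1 h2

theorem Gf_one (P : ℤ → ℕ) (s : ℤ) : Gf P s 1 = gg ((P s : ℤ) - 1) := by
  simp [Gf, ev, ev0]

theorem Gb_one (P : ℤ → ℕ) (s : ℤ) : Gb P s 1 = gg ((P s : ℤ) - 1) := by
  simp [Gb, ev, ev0]

/-- Abstract data of an unsolvable configuration on a cycle of length `a + b + 3`. -/
structure CycData (a b : ℕ) (P : ℤ → ℕ) (C : ℤ → ℕ → Prop) : Prop where
  per : ∀ i, P (i + (a + b + 3 : ℕ)) = P i
  cper : ∀ s l, C (s + (a + b + 3 : ℕ)) l ↔ C s l
  tot : ∀ s : ℤ, Q P s (a + b + 3) = 2 ^ (a + 1) + 2 ^ (b + 1) - 3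
  cf : ∀ s l, 0 ≤ Gf P s l → C s l
  cb : ∀ s l, 0 ≤ Gb P s l → C s l
  cf1 : ∀ s l, 1 ≤ Gf P s l → C s (l + 1)
  cb1 : ∀ s l, 1 ≤ Gb P s l → C (s - 1) (l + 1)
  cat : ∀ s l m, C s l → C (s + l) m → C s (l + m)
  root : ∀ (r : ℤ) (x y : ℕ), 0 ≤ (P r : ℤ) - 1 + Gf P (r - y) y + Gb P (r + 1) x →
    C (r - y) (y + 1 + x)
  no : ∀ s l, a + b + 1 ≤ l → l ≤ a + b + 3 → ¬ C s l

/-- The segment is seen to be coverable by itself. -/
def Cv (P : ℤ → ℕ) (s : ℤ) (l : ℕ) : Prop := 0 ≤ Gf P s l ∨ 0 ≤ Gb P s l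

theorem Gf_reflect (P : ℤ → ℕ) (s : ℤ) (l : ℕ) :
    Gf (fun i => P (-i)) s l = Gb P (-s - l + 1) l := by
  unfold Gf Gb
  apply ev0_congr
  intro i _
  simp only
  congr 1
  ring

theorem Gb_reflect (P : ℤ → ℕ) (s : ℤ) (l : ℕ) :
    Gb (fun i => P (-i)) s l = Gf P (-s - l + 1) l := by
  unfold Gf Gb
  apply ev0_congr
  intro i _
  simp only
  congr 1
  ring

theorem Q_reflect (P : ℤ → ℕ) (s : ℤ) (l : ℕ) :
    Q (fun i => P (-i)) s l = Q P (-s - l + 1) l := by
  unfold Q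
  rw [← Finset.sum_range_reflect]
  apply Finset.sum_congr rfl
  intro i hi
  have := Finset.mem_range.1 hi
  have e : -(s + ((l - 1 - i : ℕ) : ℤ)) = -s - l + 1 + i := by omega
  simp only [e]

theorem Cv_reflect (P : ℤ → ℕ) (s : ℤ) (l : ℕ) :
    Cv (fun i => P (-i)) s l ↔ Cv P (-s - l + 1) l := by
  unfold Cv
  rw [Gf_reflect, Gb_reflect, or_comm]

namespace CycData

variable {a b : ℕ} {P : ℤ → ℕ} {C : ℤ → ℕ → Prop} (D : CycData a b P C)

include D

theorem congr {s s' : ℤ} {l l' : ℕ} (h : C s l) (hs : s = s') (hl : l = l') : C s' l' := by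
  subst hs; subst hl; exact h

theorem nope {s : ℤ} {l : ℕ} (h : C s l) (h1 : a + b + 1 ≤ l) (h2 : l ≤ a + b + 3) : False :=
  D.no s l h1 h2 h

theorem cat' {s s' : ℤ} {l m : ℕ} (h1 : C s l) (h2 : C s' m) (hs : s' = s + l) :
    C s (l + m) := by
  subst hs; exact D.cat s l m h1 h2

/-- concatenation modulo the period -/
theorem catp {s s' : ℤ} {l m : ℕ} (h1 : C s l) (h2 : C s' m)
    (hs : s' + (a + b + 3 : ℕ) = s + l) : C s (l + m) := by
  have h3 := (D.cper s' m).2 h2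
  rw [hs] at h3
  exact D.cat s l m h1 h3

theorem per_eq {i j : ℤ} (h : i = j + (a + b + 3 : ℕ)) : P i = P j := by
  rw [h]; exact D.per j

theorem reflect : CycData a b (fun i => P (-i)) (fun s l => C (-s - l + 1) l) where
  per := fun i => by
    have := D.per (-(i + (a + b + 3 : ℕ)))
    rw [← this]
    congr 1
    ring
  cper := fun s l => by
    have := D.cper (-(s + (a + b + 3 : ℕ)) - l + 1) l
    rw [← this]
    have e : -(s + ((a + b + 3 : ℕ) : ℤ)) - (l : ℤ) + 1 + ((a + b + 3 : ℕ) : ℤ) = -s - l + 1 := by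
      ring
    rw [e]
  tot := fun s => by rw [Q_reflect]; exact D.tot _
  cf := fun s l h => D.cb _ _ (by rwa [Gf_reflect] at h)
  cb := fun s l h => D.cf _ _ (by rwa [Gb_reflect] at h)
  cf1 := fun s l h => by
    have := D.cb1 _ _ (by rwa [Gf_reflect] at h)
    refine D.congr this ?_ rfl
    push_cast; ring
  cb1 := fun s l h => by
    have := D.cf1 _ _ (by rwa [Gb_reflect] at h)
    refine D.congr this ?_ rfl
    push_cast; ring
  cat := fun s l m h1 h2 => by
    have := D.cat' h2 h1 (by push_cast; ring)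
    refine D.congr this ?_ (by omega)
    push_cast; ring
  root := fun r x y h => by
    rw [Gf_reflect, Gb_reflect] at h
    have e1 : -(r - (y : ℤ)) - y + 1 = -r + 1 := by ring
    have e2 : -(r + 1) - (x : ℤ) + 1 = -r - x := by ring
    rw [e1, e2] at h
    have := D.root (-r) y x (by linarith)
    refine D.congr this ?_ (by omega)
    push_cast; ring
  no := fun s l h1 h2 => D.no _ _ h1 h2

theorem Gf_per (s : ℤ) (l : ℕ) : Gf P (s + (a + b + 3 : ℕ)) l = Gf P s l := by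
  unfold Gf
  apply ev0_congr
  intro i _
  rw [← D.per (s + i)]
  congr 1
  ring

theorem Gb_per (s : ℤ) (l : ℕ) : Gb P (s + (a + b + 3 : ℕ)) l = Gb P s l := by
  unfold Gb
  apply ev0_congr
  intro i _
  rw [← D.per (s + l - 1 - i)]
  congr 1
  ring

theorem Cv_per (s : ℤ) (l : ℕ) : Cv P (s + (a + b + 3 : ℕ)) l ↔ Cv P s l := by
  unfold Cv
  rw [D.Gf_per, D.Gb_per]

theorem of_Cv {s : ℤ} {l : ℕ} (h : Cv P s l) : C s l := by
  rcases h with h | h
  · exact D.cf _ _ h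
  · exact D.cb _ _ h

theorem occ {s : ℤ} (h : 1 ≤ P s) : C s 1 := by
  apply D.cf
  rw [Gf_one, gg_nonneg_iff]
  have : (1 : ℤ) ≤ P s := by exact_mod_cast h
  linarith

theorem three_right {s : ℤ} (h : 3 ≤ P s) : C s 2 := by
  apply D.cf1
  rw [Gf_one]
  have : (3 : ℤ) ≤ P s := by exact_mod_cast h
  unfold gg
  split_ifs <;> omega

theorem three_left {s : ℤ} (h : 3 ≤ P s) : C (s - 1) 2 := by
  apply D.cb1
  rw [Gb_one]
  have : (3 : ℤ) ≤ P s := by exact_mod_cast h
  unfold gg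
  split_ifs <;> omega

/-- Root with crude cost. -/
theorem root' {r : ℤ} {x y : ℕ} (h : (2 : ℤ) ^ (x + 1) + 2 ^ (y + 1) - 3 ≤ P r) :
    C (r - y) (y + 1 + x) := by
  apply D.root
  have h1 := Gf_ge P (r - y) y
  have h2 := Gb_ge P (r + 1) x
  linarith

/-- Disjoint long and short arcs with a gap of one vertex. -/
theorem pair_one (ha : 2 ≤ a) (hb : 2 ≤ b) (s : ℤ) (h1 : Cv P s a) (h2 : Cv P (s + a + 1) b) :
    False := by
  have hA : (4 : ℤ) ≤ 2 ^ a := by
    calc (4 : ℤ) = 2 ^ 2 := by norm_num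
      _ ≤ 2 ^ a := pow_le_pow_right₀ (by norm_num) ha
  have hB : (4 : ℤ) ≤ 2 ^ b := by
    calc (4 : ℤ) = 2 ^ 2 := by norm_num
      _ ≤ 2 ^ b := pow_le_pow_right₀ (by norm_num) hb
  have eA : (2 : ℤ) ^ (a + 1) = 2 * 2 ^ a := by ring
  have eB : (2 : ℤ) ^ (b + 1) = 2 * 2 ^ b := by ring
  have cU := D.of_Cv h1
  have cV := D.of_Cv h2
  have tot := D.tot s
  have e : a + b + 3 = a + 1 + b + 1 + 1 := by ring
  rw [e, Q_add, Q_add, Q_add, Q_add, Q_one, Q_one, Q_one] at tot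
  have p1 : s + ((a + 1 : ℕ) : ℤ) = s + a + 1 := by push_cast; ring
  have p2 : s + ((a + 1 + b : ℕ) : ℤ) = s + a + b + 1 := by push_cast; ring
  have p3 : s + ((a + 1 + b + 1 : ℕ) : ℤ) = s + a + b + 2 := by push_cast; ring
  rw [p1, p2, p3] at tot
  have hz : P (s + a) = 0 := by
    by_contra hne
    have c1 := D.occ (s := s + a) (by omega)
    have c2 := D.cat' cU c1 rfl
    have c3 := D.cat' c2 cV (by push_cast; ring)
    exact D.nope c3 (by omega) (by omega)
  have hU : Gf P s a ≤ 0 := by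
    by_contra hne
    have c1 := D.cf1 s a (by omega)
    have c3 := D.cat' c1 cV (by push_cast; ring)
    exact D.nope c3 (by omega) (by omega)
  have hV : Gb P (s + a + 1) b ≤ 0 := by
    by_contra hne
    have c1 := D.cb1 (s + a + 1) b (by omega)
    have c3 := D.cat' cU c1 (by ring)
    exact D.nope c3 (by omega) (by omega)
  rw [hz] at tot
  rw [eA, eB] at tot
  have pw : P (s - 1) = P (s + a + b + 2) := by
    symm
    apply D.per_eq
    push_cast; ring
  by_cases hc : P (s + a + b + 1) = 0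
  · by_cases hd : P (s + a + b + 2) = 0
    · have q1 := Q_of_Gf hU
      have q2 := Q_of_Gb hV
      rw [hc, hd] at tot
      rw [eA] at q1
      rw [eB] at q2
      push_cast at tot
      linarith
    · -- the vertex next to `U` is occupied
      have cX : C (s - 1) (1 + a) := D.cat' (D.occ (s := s - 1) (by omega)) cU (by push_cast; ring)
      have x1 : Gf P (s - 1) (1 + a) ≤ 0 := by
        by_contra hne
        have c1 := D.cf1 (s - 1) (1 + a) (by omega)
        have c3 := D.cat' c1 cV (by push_cast; ring)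
        exact D.nope c3 (by omega) (by omega)
      have x2 : Gb P (s - 1) (1 + a) ≤ 0 := by
        by_contra hne
        have c1 := D.cb1 (s - 1) (1 + a) (by omega)
        have c3 := D.catp cV c1 (by push_cast; ring)
        exact D.nope c3 (by omega) (by omega)
      have v1 : Gf P (s + a + 1) b ≤ 0 := by
        by_contra hne
        have c1 := D.cf1 (s + a + 1) b (by omega)
        have c3 := D.catp c1 cX (by push_cast; ring)
        exact D.nope c3 (by omega) (by omega)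
      have q1 := Q_two x1 x2
      have q2 := Q_two v1 hV
      rw [Q_add, Q_one] at q1
      have e3 : s - 1 + ((1 : ℕ) : ℤ) = s := by push_cast; ring
      rw [e3, add_comm 1 a, eA, pw] at q1
      rw [hc] at tot
      push_cast at tot
      linarith
  · by_cases hd : P (s + a + b + 2) = 0
    · -- the vertex next to `V` is occupied
      have cX : C (s + a + 1) (b + 1) :=
        D.cat' cV (D.occ (s := s + a + b + 1) (by omega)) (by push_cast; ring)
      have x1 : Gf P (s + a + 1) (b + 1) ≤ 0 := by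
        by_contra hne
        have c1 := D.cf1 (s + a + 1) (b + 1) (by omega)
        have c3 := D.catp c1 cU (by push_cast; ring)
        exact D.nope c3 (by omega) (by omega)
      have x2 : Gb P (s + a + 1) (b + 1) ≤ 0 := by
        by_contra hne
        have c1 := D.cb1 (s + a + 1) (b + 1) (by omega)
        have c3 := D.cat' cU c1 (by ring)
        exact D.nope c3 (by omega) (by omega)
      have u1 : Gb P s a ≤ 0 := by
        by_contra hne
        have c1 := D.cb1 s a (by omega)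
        have c3 := D.catp cX c1 (by push_cast; ring)
        exact D.nope c3 (by omega) (by omega)
      have q1 := Q_two x1 x2
      have q2 := Q_two hU u1
      rw [Q_add, Q_one] at q1
      have e3 : s + (a : ℤ) + 1 + (b : ℤ) = s + a + b + 1 := by ring
      rw [e3, eB] at q1
      rw [hd] at tot
      push_cast at tot
      linarith
    · have c1 := D.cat' cV (D.occ (s := s + a + b + 1) (by omega)) (by push_cast; ring)
      have c2 := D.cat' c1 (D.occ (s := s + a + b + 2) (by omega)) (by push_cast; ring)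
      have c3 := D.catp c2 cU (by push_cast; ring)
      exact D.nope c3 (by omega) (by omega)

/-- Adjacent long and short arcs. -/
theorem pair_zero (ha : 3 ≤ a) (hb : 2 ≤ b) (s : ℤ) (h1 : Cv P s a) (h2 : Cv P (s + a) b) :
    False := by
  have hA : (8 : ℤ) ≤ 2 ^ a := by
    calc (8 : ℤ) = 2 ^ 3 := by norm_num
      _ ≤ 2 ^ a := pow_le_pow_right₀ (by norm_num) ha
  have eA : (2 : ℤ) ^ (a + 1) = 2 * 2 ^ a := by ring
  have eB : (2 : ℤ) ^ (b + 1) = 2 * 2 ^ b := by ring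
  have cU := D.of_Cv h1
  have cV := D.of_Cv h2
  have cJ := D.cat' cU cV rfl
  have tot := D.tot s
  have e : a + b + 3 = a + b + 1 + 1 + 1 := by ring
  rw [e, Q_add, Q_add, Q_add, Q_add, Q_one, Q_one, Q_one] at tot
  have p1 : s + ((a + b : ℕ) : ℤ) = s + a + b := by push_cast; ring
  have p2 : s + ((a + b + 1 : ℕ) : ℤ) = s + a + b + 1 := by push_cast; ring
  have p3 : s + ((a + b + 1 + 1 : ℕ) : ℤ) = s + a + b + 2 := by push_cast; ring
  rw [p1, p2, p3, eA, eB] at tot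
  have pw : P (s - 1) = P (s + a + b + 2) := by
    symm
    apply D.per_eq
    push_cast; ring
  have hx : P (s + a + b) = 0 := by
    by_contra hne
    have c2 := D.cat' cJ (D.occ (s := s + a + b) (by omega)) (by push_cast; ring)
    exact D.nope c2 (by omega) (by omega)
  have hw : P (s + a + b + 2) = 0 := by
    by_contra hne
    have c2 := D.cat' (D.occ (s := s - 1) (by omega)) cJ (by push_cast; ring)
    exact D.nope c2 (by omega) (by omega)
  have hy : P (s + a + b + 1) ≤ 2 := by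
    by_contra hne
    have c1 := D.three_left (s := s + a + b + 1) (by omega)
    have c2 := D.cat' cJ c1 (by push_cast; ring)
    exact D.nope c2 (by omega) (by omega)
  have hU : Gb P s a ≤ 0 := by
    by_contra hne
    have c1 := D.cb1 s a (by omega)
    have c3 := D.cat' c1 cV (by push_cast; ring)
    exact D.nope c3 (by omega) (by omega)
  have hV : Gf P (s + a) b ≤ 0 := by
    by_contra hne
    have c1 := D.cf1 (s + a) b (by omega)
    have c3 := D.cat' cU c1 rfl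
    exact D.nope c3 (by omega) (by omega)
  have hJ : Gf P s (a + b) ≤ 0 := by
    by_contra hne
    have c1 := D.cf1 s (a + b) (by omega)
    exact D.nope c1 (by omega) (by omega)
  have q1 := Q_of_Gb hU
  have q2 := Q_of_Gf hV
  rw [eA] at q1
  rw [eB] at q2
  rw [hx, hw] at tot
  have hy' : (P (s + a + b + 1) : ℤ) ≤ 2 := by exact_mod_cast hy
  push_cast at tot
  have hU2 : 2 ≤ Gf P s a := by
    by_contra hne
    have q3 := Q_two' (P := P) (s := s) (l := a) (by omega) hU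
    linarith
  -- evaluate `J`
  have h3 : Gf P s (a + b) = ev0 (Gf P s a) (fun i => P (s + a + i)) b := by
    unfold Gf
    simp only [ev]
    rw [ev0_add]
    apply ev0_congr
    intro i _
    congr 1
    push_cast
    ring
  have h4 : ev0 2 (fun i => P (s + a + i)) b ≤ Gf P s (a + b) := by
    rw [h3]
    exact ev0_mono hU2 (fun _ _ => le_refl _)
  obtain ⟨b', rfl⟩ : ∃ b', b = b' + 1 := ⟨b - 1, by omega⟩
  have h5 := ev0_carry 2 (fun i : ℕ => P (s + a + i)) b'
  push_cast at h5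
  rw [h5] at h4
  have h6 := ev_le_zero (h4.trans hJ)
  have h7 : (∑ i ∈ range (b' + 1), ((if i = 0 then P (s + a + ((0 : ℕ) : ℤ)) + 2
      else P (s + a + (i : ℤ)) : ℕ) : ℤ)) = Q P (s + a) (b' + 1) + 2 := by
    unfold Q
    rw [Finset.sum_range_succ', Finset.sum_range_succ']
    simp
    ring
  have h6' : Q P (s + a) (b' + 1) + 2 ≤ 2 ^ (b' + 1 + 1) - 2 := by
    rw [← h7]
    simpa using h6
  rw [eB] at h6'
  linarith

theorem pair_no (ha : 3 ≤ a) (hb : 2 ≤ b) (s : ℤ) (g : ℕ) (hg : g ≤ 3) (h1 : Cv P s a)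
    (h2 : Cv P (s + a + g) b) : False := by
  have key : ∀ g' : ℕ, g + g' = 3 →
      Cv (fun i => P (-i)) (-s - a + 1) a ∧ Cv (fun i => P (-i)) (-s - a + 1 + a + g') b := by
    intro g' hg'
    constructor
    · rw [Cv_reflect]
      have e : -(-s - (a : ℤ) + 1) - a + 1 = s := by ring
      rw [e]
      exact h1
    · rw [Cv_reflect, ← D.Cv_per]
      have e : -(-s - (a : ℤ) + 1 + a + g') - b + 1 + ((a + b + 3 : ℕ) : ℤ) = s + a + g := by
        have : (g : ℤ) = 3 - g' := by omega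
        rw [this]
        push_cast
        ring
      rw [e]
      exact h2
  interval_cases g
  · simp only [Nat.cast_zero, add_zero] at h2
    exact D.pair_zero ha hb s h1 h2
  · simp only [Nat.cast_one] at h2
    exact D.pair_one (by omega) hb s h1 h2
  · obtain ⟨k1, k2⟩ := key 1 rfl
    simp only [Nat.cast_one] at k2
    exact D.reflect.pair_one (by omega) hb _ k1 k2
  · obtain ⟨k1, k2⟩ := key 0 rfl
    simp only [Nat.cast_zero, add_zero] at k2
    exact D.reflect.pair_zero ha hb _ k1 k2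

theorem adj_no (ha : 3 ≤ a) (hb : 2 ≤ b) (hab : a = b ∨ a = b + 1) (s : ℤ) (h1 : Cv P s a)
    (h2 : Cv P (s + a) a) : False := by
  rcases hab with rfl | hab
  · exact D.pair_zero ha hb s h1 h2
  · have c := D.cat' (D.of_Cv h1) (D.of_Cv h2) rfl
    exact D.nope c (by omega) (by omega)

/-- Both arms need help: long arm to the right. -/
theorem ntypeL {r : ℤ} (h1 : ¬ Cv P (r + 1) a) (h2 : ¬ Cv P (r - b) b) :
    (2 : ℤ) ^ (a + 1) + 2 ^ (b + 1) - 2 - P r ≤ 2 * (P (r + a + 1) + P (r + a + 2)) := by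
  unfold Cv at h1 h2
  push Not at h1 h2
  have h3 : ¬ 0 ≤ (P r : ℤ) - 1 + Gf P (r - b) b + Gb P (r + 1) a := by
    intro h
    exact D.nope (D.root r a b h) (by omega) (by omega)
  have q1 := Gb_neg h1.2
  have q2 := Gf_neg h2.1
  have tot := D.tot (r - b)
  have e : a + b + 3 = b + 1 + a + 1 + 1 := by ring
  rw [e, Q_add, Q_add, Q_add, Q_add, Q_one, Q_one, Q_one] at tot
  have p0 : r - (b : ℤ) + (b : ℤ) = r := by ring
  have p1 : r - (b : ℤ) + ((b + 1 : ℕ) : ℤ) = r + 1 := by push_cast; ring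
  have p2 : r - (b : ℤ) + ((b + 1 + a : ℕ) : ℤ) = r + a + 1 := by push_cast; ring
  have p3 : r - (b : ℤ) + ((b + 1 + a + 1 : ℕ) : ℤ) = r + a + 2 := by push_cast; ring
  rw [p0, p1, p2, p3] at tot
  linarith

/-- Both arms need help: long arm to the left. -/
theorem ntypeR {r : ℤ} (h1 : ¬ Cv P (r - a) a) (h2 : ¬ Cv P (r + 1) b) :
    (2 : ℤ) ^ (a + 1) + 2 ^ (b + 1) - 2 - P r ≤ 2 * (P (r + b + 1) + P (r + b + 2)) := by
  unfold Cv at h1 h2
  push Not at h1 h2
  have h3 : ¬ 0 ≤ (P r : ℤ) - 1 + Gf P (r - a) a + Gb P (r + 1) b := by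
    intro h
    exact D.nope (D.root r b a h) (by omega) (by omega)
  have q1 := Gf_neg h1.1
  have q2 := Gb_neg h2.2
  have tot := D.tot (r - a)
  have e : a + b + 3 = a + 1 + b + 1 + 1 := by ring
  rw [e, Q_add, Q_add, Q_add, Q_add, Q_one, Q_one, Q_one] at tot
  have p0 : r - (a : ℤ) + (a : ℤ) = r := by ring
  have p1 : r - (a : ℤ) + ((a + 1 : ℕ) : ℤ) = r + 1 := by push_cast; ring
  have p2 : r - (a : ℤ) + ((a + 1 + b : ℕ) : ℤ) = r + b + 1 := by push_cast; ring
  have p3 : r - (a : ℤ) + ((a + 1 + b + 1 : ℕ) : ℤ) = r + b + 2 := by push_cast; ring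
  rw [p0, p1, p2, p3] at tot
  linarith

theorem Q_shift (s : ℤ) : Q P (s + 1) (a + b + 3) = Q P s (a + b + 3) := by
  rw [D.tot, D.tot]

/-- Some long arc covers itself. -/
theorem exists_Cv (ha : 3 ≤ a) (hab : a = b ∨ a = b + 1) : ∃ i, Cv P i a := by
  by_contra hne
  push Not at hne
  have hA : (8 : ℤ) ≤ 2 ^ a := by
    calc (8 : ℤ) = 2 ^ 3 := by norm_num
      _ ≤ 2 ^ a := pow_le_pow_right₀ (by norm_num) ha
  have h1 : ∀ s, Q P s a ≤ 2 ^ a - 2 := by
    intro s
    have h2 := hne s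
    unfold Cv at h2
    push Not at h2
    have h3 := Gf_neg h2.1
    have e : (2 : ℤ) ^ (a + 1) = 2 * 2 ^ a := by ring
    rw [e] at h3
    have h4 := h2.1
    omega
  have h2 : ∑ s ∈ range (a + b + 3), Q P (s : ℤ) a = a * (2 ^ (a + 1) + 2 ^ (b + 1) - 3) := by
    unfold Q
    rw [Finset.sum_comm]
    have : ∀ i ∈ range a, ∑ s ∈ range (a + b + 3), (P ((s : ℤ) + i) : ℤ) =
        2 ^ (a + 1) + 2 ^ (b + 1) - 3 := by
      intro i _
      rw [← D.tot i]
      unfold Q
      apply Finset.sum_congr rfl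
      intro j _
      rw [add_comm]
    rw [Finset.sum_congr rfl this]
    rw [Finset.sum_const, Finset.card_range, nsmul_eq_mul]
  have h3 : ∑ s ∈ range (a + b + 3), Q P (s : ℤ) a ≤ (a + b + 3) * (2 ^ a - 2) := by
    calc ∑ s ∈ range (a + b + 3), Q P (s : ℤ) a ≤ ∑ s ∈ range (a + b + 3), ((2 : ℤ) ^ a - 2) :=
          Finset.sum_le_sum (fun s _ => h1 s)
      _ = (a + b + 3) * (2 ^ a - 2) := by
          rw [Finset.sum_const, Finset.card_range, nsmul_eq_mul]; push_cast; ring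
  rw [h2] at h3
  have ha' : (3 : ℤ) ≤ a := by exact_mod_cast ha
  rcases hab with hab | hab
  · rw [← hab] at h3
    have e : (2 : ℤ) ^ (a + 1) = 2 * 2 ^ a := by ring
    rw [e] at h3
    nlinarith [mul_nonneg (sub_nonneg.2 ha') (by linarith : (0 : ℤ) ≤ 2 ^ a)]
  · have e : (2 : ℤ) ^ (a + 1) = 2 * 2 ^ a := by ring
    have e2 : (2 : ℤ) ^ (b + 1) = 2 ^ a := by rw [hab]
    have e3 : (b : ℤ) = a - 1 := by rw [hab]; push_cast; ring
    rw [e, e2, e3] at h3
    nlinarith [mul_nonneg (sub_nonneg.2 ha') (by linarith : (0 : ℤ) ≤ 2 ^ a)]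

end CycData

end Pool.Agent.X71.Hub
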