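import Pool.Agent.X71.Hub.Cyc

/-!
# Cycles of length at most seven
-/

namespace Pool.Agent.X71.Hub

open Finset SimpleGraph

/-- Check a predicate for all lists of length `n` and sum `t`. -/
def allComps : ℕ → ℕ → (List ℕ → Bool) → Bool
  | 0, t, P => if t = 0 then P [] else true
  | n + 1, t, P => (List.range (t + 1)).all (fun x => allComps n (t - x) (fun l => P (x :: l)))

theorem allComps_sound (n : ℕ) : ∀ (t : ℕ) (P : List ℕ → Bool), allComps n t P = true →
    ∀ l : List ℕ, l.length = n → l.sum = t → P l = true := by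
  induction n with
  | zero =>
    intro t P h l hl hs
    have : l = [] := List.length_eq_zero_iff.1 hl
    subst this
    have ht : t = 0 := by simpa using hs.symm
    simpa [allComps, ht] using h
  | succ n ih =>
    intro t P h l hl hs
    obtain ⟨x, l', rfl⟩ : ∃ x l', l = x :: l' := by
      cases l with
      | nil => simp at hl
      | cons x l' => exact ⟨x, l', rfl⟩
    rw [allComps, List.all_eq_true] at h
    simp only [List.sum_cons] at hs
    have h1 := h x (List.mem_range.2 (by omega))
    exact ih (t - x) _ h1 l' (by simpa using hl) (by omega)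

/-- Check a predicate for all lists of length `n` and sum `t` with entries at most `b`. -/
def allB : ℕ → ℕ → ℕ → (List ℕ → Bool) → Bool
  | 0, t, _, P => if t = 0 then P [] else true
  | n + 1, t, b, P => if (n + 1) * b < t then true else
      (List.range (min t b + 1)).all (fun x => allB n (t - x) b (fun l => P (x :: l)))

theorem sum_le_of_le (l : List ℕ) (b : ℕ) (h : ∀ x ∈ l, x ≤ b) : l.sum ≤ l.length * b := by
  induction l with
  | nil => simp
  | cons x l ih =>
    rw [List.sum_cons, List.length_cons, Nat.succ_mul]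
    have h1 := h x (by simp)
    have h2 := ih (fun y hy => h y (by simp [hy]))
    omega

theorem allB_sound (n : ℕ) : ∀ (t b : ℕ) (P : List ℕ → Bool), allB n t b P = true →
    ∀ l : List ℕ, l.length = n → l.sum = t → (∀ x ∈ l, x ≤ b) → P l = true := by
  induction n with
  | zero =>
    intro t b P h l hl hs _
    have : l = [] := List.length_eq_zero_iff.1 hl
    subst this
    have ht : t = 0 := by simpa using hs.symm
    simpa [allB, ht] using h
  | succ n ih =>
    intro t b P h l hl hs hb
    have hle := sum_le_of_le l b hb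
    rw [hl, hs] at hle
    rw [allB, if_neg (by omega)] at h
    obtain ⟨x, l', rfl⟩ : ∃ x l', l = x :: l' := by
      cases l with
      | nil => simp at hl
      | cons x l' => exact ⟨x, l', rfl⟩
    rw [List.all_eq_true] at h
    simp only [List.sum_cons] at hs
    have hx := hb x (by simp)
    have h1 := h x (List.mem_range.2 (by omega))
    exact ih (t - x) b _ h1 l' (by simpa using hl) (by omega) (fun y hy => hb y (by simp [hy]))

/-- Check a predicate for all lists of length `n + 1` and sum `t` whose head is a maximum. -/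
def allMax (n t : ℕ) (P : List ℕ → Bool) : Bool :=
  (List.range (t + 1)).all (fun x => allB n (t - x) x (fun l => P (x :: l)))

theorem allMax_sound (n t : ℕ) (P : List ℕ → Bool) (h : allMax n t P = true) (x : ℕ)
    (l : List ℕ) (hl : l.length = n) (hs : x + l.sum = t) (hb : ∀ y ∈ l, y ≤ x) :
    P (x :: l) = true := by
  rw [allMax, List.all_eq_true] at h
  have h1 := h x (List.mem_range.2 (by omega))
  exact allB_sound n (t - x) x _ h1 l hl (by omega) hb

/-- Check by evaluation of windows. -/
def evCheck (n : ℕ) (order : List ℕ) (l : List ℕ) : Bool :=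
  order.any (fun s => decide (0 ≤ ev (fun i => l.getD ((s + i) % n) 0) (n - 2)))

theorem getD_ofFn {n : ℕ} (c : Fin n → ℕ) (j : ℕ) (hj : j < n) :
    (List.ofFn c).getD j 0 = c ⟨j, hj⟩ := by
  rw [List.getD_eq_getElem?_getD, List.getElem?_ofFn]
  simp [hj]

theorem sum_phi (m : ℕ) (s : ℤ) (c : Fin (m + 3) → ℕ) :
    ∑ v, c v = ∑ i ∈ range (m + 3), c (phi m (s + i)) := by
  conv_lhs => rw [phi_full m s c]
  simp only [Finset.sum_apply]
  rw [Finset.sum_comm]
  apply Finset.sum_congr rfl
  intro i _
  rw [Finset.sum_pi_single']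
  simp

theorem upper_of_evCheck (m t : ℕ) (order : List ℕ)
    (h : allMax (m + 2) t (evCheck (m + 3) order) = true)
    (c : Fin (m + 3) → ℕ) (hc : ∑ v, c v = t) : HubCoverable (cycleGraph (m + 3)) c := by
  obtain ⟨v0, hv0⟩ := Finite.exists_max c
  obtain ⟨r, hr⟩ : ∃ r : ℤ, r = (v0.val : ℤ) := ⟨_, rfl⟩
  have hr0 : phi m r = v0 := by rw [hr]; exact phi_val m v0
  have hlist : (List.range (m + 3)).map (fun j : ℕ => c (phi m (r + j))) =
      c v0 :: (List.range (m + 2)).map (fun j : ℕ => c (phi m (r + (j + 1 : ℕ)))) := by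
    rw [List.range_succ_eq_map, List.map_cons, List.map_map]
    simp only [Nat.cast_zero, add_zero, hr0]
    rfl
  have hsum : c v0 + ((List.range (m + 2)).map (fun j : ℕ => c (phi m (r + (j + 1 : ℕ))))).sum
      = t := by
    rw [← hc, sum_phi m r c, ← List.sum_cons, ← hlist]
    rfl
  have h1 := allMax_sound (m + 2) t _ h (c v0)
    ((List.range (m + 2)).map (fun j : ℕ => c (phi m (r + (j + 1 : ℕ))))) (by simp) hsum (by
      intro y hy
      obtain ⟨j, _, rfl⟩ := List.mem_map.1 hy
      exact hv0 _)
  rw [← hlist] at h1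
  rw [evCheck, List.any_eq_true] at h1
  obtain ⟨s, _, hs⟩ := h1
  have hs' := of_decide_eq_true hs
  have H := phi_param m
  apply hubCoverable_of_cov m c (r + s)
  have h2 : 0 ≤ Gf (fun i => c (phi m i)) (r + s) (m + 1) := by
    refine le_trans hs' (le_of_eq ?_)
    unfold Gf
    apply ev0_congr
    intro i _
    have hlt : (s + i) % (m + 3) < m + 3 := Nat.mod_lt _ (by omega)
    rw [List.getD_eq_getElem?_getD, List.getElem?_map, List.getElem?_range hlt]
    simp only [Option.map_some, Option.getD_some]
    congr 1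
    rw [phi_eq_iff]
    push_cast
    have h3 : ((s : ℤ) + i) % ((m : ℤ) + 3) ≡ s + i [ZMOD (m + 3)] := Int.mod_modEq _ _
    have h4 := h3.add_left r
    rwa [← add_assoc] at h4
  have h3 := covSeg_of_Gf H c h2
  unfold CovSeg at h3
  refine h3.mono_left ?_
  have e : c = seg (phi m) c (r + s) (m + 1 + 2) := H.full (r + s) c
  rw [seg_add] at e
  intro v
  have := congrFun e v
  rw [this]
  simp

theorem upper_six (c : Fin 6 → ℕ) (hc : ∑ v, c v = 9) : HubCoverable (cycleGraph 6) c :=
  upper_of_evCheck 3 9 [5, 4, 0, 3, 1, 2] (by decide +kernel) c hc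

theorem upper_seven (c : Fin 7 → ℕ) (hc : ∑ v, c v = 13) : HubCoverable (cycleGraph 7) c :=
  upper_of_evCheck 4 13 [5, 6, 4, 0, 3, 1, 2] (by decide +kernel) c hc

/-- All but two consecutive vertices are occupied. -/
def coversB {m : ℕ} (c : Fin (m + 3) → ℕ) : Bool :=
  (List.finRange (m + 3)).any (fun s =>
    (List.finRange (m + 3)).all (fun v => decide (v = s) || decide (v = s + 1) || decide (1 ≤ c v)))

/-- The result of a move. -/
def mv {n : ℕ} (c : Fin n → ℕ) (u v : Fin n) : Fin n → ℕ :=
  Function.update (Function.update c u (c u - 2)) v (c v + 1)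

/-- Search for a solution with few moves. -/
def solveF {m : ℕ} : ℕ → (Fin (m + 3) → ℕ) → Bool
  | 0, c => coversB c
  | k + 1, c => coversB c || (List.finRange (m + 3)).any (fun u =>
      decide (2 ≤ c u) && (solveF k (mv c u (u + 1)) || solveF k (mv c u (u - 1))))

theorem hubCoverable_of_coversB {m : ℕ} (c : Fin (m + 3) → ℕ) (h : coversB c = true) :
    HubCoverable (cycleGraph (m + 3)) c := by
  rw [coversB, List.any_eq_true] at h
  obtain ⟨s, _, hs⟩ := h
  rw [List.all_eq_true] at hs
  refine ⟨c, Relation.ReflTransGen.refl, _, hub_window m (s.val + 2), ?_⟩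
  rintro u ⟨j, hj, rfl⟩
  have h1 := hs (phi m (s.val + 2 + j)) (List.mem_finRange _)
  have e0 : s = phi m (s.val) := (phi_val m s).symm
  have e1 : s + 1 = phi m (s.val + 1) := by
    conv_lhs => rw [e0]
    unfold phi
    push_cast
    rfl
  have n0 : phi m (s.val + 2 + j) ≠ s := by
    intro h
    have h' : phi m ((s.val : ℤ) + 2 + j) = phi m (s.val) := h.trans e0
    have := phi_inj m _ _ h' (by push_cast; omega) (by push_cast; omega)
    omega
  have n1 : phi m (s.val + 2 + j) ≠ s + 1 := by
    intro h
    have h' := h.trans e1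
    have := phi_inj m _ _ h' (by push_cast; omega) (by push_cast; omega)
    omega
  simp only [Bool.or_eq_true, decide_eq_true_eq] at h1
  rcases h1 with (h1 | h1) | h1
  · exact absurd h1 n0
  · exact absurd h1 n1
  · exact h1

theorem HubCoverable.of_move {n : ℕ} {G : SimpleGraph (Fin n)} {c d : Fin n → ℕ}
    (h : Move G c d) (hd : HubCoverable G d) : HubCoverable G c := by
  obtain ⟨e, he, h2⟩ := hd
  exact ⟨e, Relation.ReflTransGen.head h he, h2⟩

theorem hubCoverable_of_solveF {m : ℕ} (k : ℕ) : ∀ c : Fin (m + 3) → ℕ, solveF k c = true →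
    HubCoverable (cycleGraph (m + 3)) c := by
  induction k with
  | zero => intro c h; exact hubCoverable_of_coversB c h
  | succ k ih =>
    intro c h
    rw [solveF, Bool.or_eq_true] at h
    rcases h with h | h
    · exact hubCoverable_of_coversB c h
    · rw [List.any_eq_true] at h
      obtain ⟨u, _, hu⟩ := h
      rw [Bool.and_eq_true, Bool.or_eq_true, decide_eq_true_eq] at hu
      obtain ⟨hu1, hu2 | hu2⟩ := hu
      · refine HubCoverable.of_move ⟨u, u + 1, ?_, hu1, rfl⟩ (ih _ hu2)
        rw [cycleGraph_adj]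
        right
        simp
      · refine HubCoverable.of_move ⟨u, u - 1, ?_, hu1, rfl⟩ (ih _ hu2)
        rw [cycleGraph_adj]
        left
        simp

/-- Search check for lists. -/
def srchCheck (m k : ℕ) (l : List ℕ) : Bool := solveF (m := m) k (fun i => l.getD i.val 0)

theorem upper_of_srchCheck (m k t : ℕ) (h : allComps (m + 3) t (srchCheck m k) = true)
    (c : Fin (m + 3) → ℕ) (hc : ∑ v, c v = t) : HubCoverable (cycleGraph (m + 3)) c := by
  have h1 := allComps_sound (m + 3) t _ h (List.ofFn c) (List.length_ofFn) (by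
    rw [List.sum_ofFn]; exact hc)
  apply hubCoverable_of_solveF k c
  have e : (fun i : Fin (m + 3) => (List.ofFn c).getD i.val 0) = c := by
    funext i
    exact getD_ofFn c i.val i.isLt
  unfold srchCheck at h1
  rwa [e] at h1

theorem upper_three (c : Fin 3 → ℕ) (hc : ∑ v, c v = 1) : HubCoverable (cycleGraph 3) c :=
  upper_of_srchCheck 0 0 1 (by decide +kernel) c hc

theorem upper_four (c : Fin 4 → ℕ) (hc : ∑ v, c v = 3) : HubCoverable (cycleGraph 4) c :=
  upper_of_srchCheck 1 1 3 (by decide +kernel) c hc

theorem upper_five (c : Fin 5 → ℕ) (hc : ∑ v, c v = 5) : HubCoverable (cycleGraph 5) c :=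
  upper_of_srchCheck 2 3 5 (by decide +kernel) c hc

end Pool.Agent.X71.Hub
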