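import Pool.Agent.X71.Hub.Def
import Pool.Agent.X71.Hub.Ev

/-!
# The evaluation is realised by pebbling moves
-/

namespace Pool.Agent.X71.Hub

open Finset

variable {V : Type*} [DecidableEq V] {G : SimpleGraph V}

theorem can_ev (v : ℕ → V) (f : ℕ → ℕ) (L : ℕ) (hadj : ∀ i < L, G.Adj (v i) (v (i + 1))) :
    Can G (∑ i ∈ range L, Pi.single (v i) (f i) + Pi.single (v L) (-(ev f L)).toNat)
      (∑ i ∈ range L, Pi.single (v i) 1 + Pi.single (v L) (ev f L).toNat) := by
  induction L with
  | zero => simpa [ev, ev0] using Can.rfl'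
  | succ L ih =>
    have ih' := ih (fun i hi => hadj i (by omega))
    have hL := hadj L (by omega)
    rw [Finset.sum_range_succ, Finset.sum_range_succ]
    simp only [ev] at *
    rw [ev0_succ]
    set g := ev0 0 f L with hg
    set A := ∑ i ∈ range L, (Pi.single (v i) (f i) : V → ℕ) with hA
    set B := ∑ i ∈ range L, (Pi.single (v i) 1 : V → ℕ) with hB
    by_cases hx : 0 ≤ (f L : ℤ) - 1 + g
    · have hgg : gg ((f L : ℤ) - 1 + g) = ((f L : ℤ) - 1 + g) / 2 := by
        unfold gg; rw [if_pos hx]
      rw [hgg]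
      obtain ⟨x, hxn⟩ : ∃ x : ℕ, (x : ℤ) = (f L : ℤ) - 1 + g := ⟨_, Int.toNat_of_nonneg hx⟩
      rw [← hxn]
      have e1 : (-((x : ℤ) / 2)).toNat = 0 := by omega
      have e2 : ((x : ℤ) / 2).toNat = x / 2 := by omega
      rw [e1, e2, Pi.single_zero, add_zero]
      obtain ⟨y, hy1, hy2⟩ : ∃ y : ℕ, f L = (-g).toNat + y ∧ y + g.toNat = x + 1 := by
        refine ⟨f L - (-g).toNat, by omega, by omega⟩
      rw [hy1, Pi.single_add, ← add_assoc]
      refine (ih'.add (Pi.single (v L) y)).trans ?_
      have e3 : B + Pi.single (v L) g.toNat + Pi.single (v L) y =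
          (B + Pi.single (v L) 1) + Pi.single (v L) x := by
        rw [add_assoc, add_assoc, ← Pi.single_add, ← Pi.single_add]
        congr 2
        omega
      rw [e3, add_comm (B + Pi.single (v L) 1), add_comm (B + Pi.single (v L) 1)]
      apply Can.add
      refine (can_moves hL (x / 2)).mono_left ?_
      intro w
      by_cases hw : w = v L
      · subst hw
        simp only [Pi.single_eq_same]
        omega
      · simp [Pi.single_eq_of_ne hw]
    · have hgg : gg ((f L : ℤ) - 1 + g) = 2 * ((f L : ℤ) - 1 + g) := by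
        unfold gg; rw [if_neg hx]
      rw [hgg]
      push Not at hx
      obtain ⟨x, hxn⟩ : ∃ x : ℕ, (x : ℤ) = -((f L : ℤ) - 1 + g) :=
        ⟨_, Int.toNat_of_nonneg (by omega)⟩
      have e1 : (-(2 * ((f L : ℤ) - 1 + g))).toNat = 2 * x := by omega
      have e2 : (2 * ((f L : ℤ) - 1 + g)).toNat = 0 := by omega
      rw [e1, e2, Pi.single_zero, add_zero]
      have h1 := (can_moves hL.symm x).add (A + Pi.single (v L) (f L))
      refine ((h1.mono_left (le_of_eq (add_comm _ _))).mono_right
        (le_of_eq (add_comm _ _))).trans ?_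
      have e3 : A + Pi.single (v L) (f L) + Pi.single (v L) x =
          A + Pi.single (v L) (-g).toNat + Pi.single (v L) 1 := by
        rw [add_assoc, add_assoc, ← Pi.single_add, ← Pi.single_add]
        congr 2
        omega
      rw [e3]
      have e4 : g.toNat = 0 := by omega
      have h2 := ih'
      rw [e4, Pi.single_zero, add_zero] at h2
      exact h2.add _

/-- A cyclic parametrisation of the vertices. -/
structure CycleParam (G : SimpleGraph V) (n : ℕ) (φ : ℤ → V) : Prop where
  adj : ∀ i, G.Adj (φ i) (φ (i + 1))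
  per : ∀ i, φ (i + n) = φ i
  full : ∀ (s : ℤ) (c : V → ℕ), c = ∑ i ∈ range n, Pi.single (φ (s + i)) (c (φ (s + i)))

/-- Part of a configuration on a segment. -/
def seg (φ : ℤ → V) (c : V → ℕ) (s : ℤ) (l : ℕ) : V → ℕ :=
  ∑ i ∈ range l, Pi.single (φ (s + i)) (c (φ (s + i)))

/-- One pebble on each vertex of a segment. -/
def cov (φ : ℤ → V) (s : ℤ) (l : ℕ) : V → ℕ :=
  ∑ i ∈ range l, Pi.single (φ (s + i)) 1

theorem seg_add (φ : ℤ → V) (c : V → ℕ) (s : ℤ) (l m : ℕ) :
    seg φ c s (l + m) = seg φ c s l + seg φ c (s + l) m := by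
  unfold seg
  rw [Finset.sum_range_add]
  congr 1
  apply Finset.sum_congr rfl
  intro i _
  push_cast
  rw [add_assoc]

theorem cov_add (φ : ℤ → V) (s : ℤ) (l m : ℕ) :
    cov φ s (l + m) = cov φ s l + cov φ (s + l) m := by
  unfold cov
  rw [Finset.sum_range_add]
  congr 1
  apply Finset.sum_congr rfl
  intro i _
  push_cast
  rw [add_assoc]

theorem seg_one (φ : ℤ → V) (c : V → ℕ) (s : ℤ) : seg φ c s 1 = Pi.single (φ s) (c (φ s)) := by
  simp [seg]

theorem cov_one (φ : ℤ → V) (s : ℤ) : cov φ s 1 = Pi.single (φ s) 1 := by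
  simp [cov]

/-- Forward evaluation of the segment. -/
def Gf (P : ℤ → ℕ) (s : ℤ) (l : ℕ) : ℤ := ev (fun i => P (s + i)) l

/-- Backward evaluation of the segment. -/
def Gb (P : ℤ → ℕ) (s : ℤ) (l : ℕ) : ℤ := ev (fun i => P (s + l - 1 - i)) l

theorem seg_reflect (φ : ℤ → V) (c : V → ℕ) (s : ℤ) (l : ℕ) :
    ∑ i ∈ range l, (Pi.single (φ (s + l - 1 - i)) (c (φ (s + l - 1 - i))) : V → ℕ) =
      seg φ c s l := by
  unfold seg
  rw [← Finset.sum_range_reflect]
  apply Finset.sum_congr rfl
  intro i hi
  have : s + (l : ℤ) - 1 - ((l - 1 - i : ℕ) : ℤ) = s + i := by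
    have := Finset.mem_range.1 hi
    omega
  rw [this]

theorem cov_reflect (φ : ℤ → V) (s : ℤ) (l : ℕ) :
    ∑ i ∈ range l, (Pi.single (φ (s + l - 1 - i)) 1 : V → ℕ) = cov φ s l := by
  unfold cov
  rw [← Finset.sum_range_reflect]
  apply Finset.sum_congr rfl
  intro i hi
  have : s + (l : ℤ) - 1 - ((l - 1 - i : ℕ) : ℤ) = s + i := by
    have := Finset.mem_range.1 hi
    omega
  rw [this]

section

variable {n : ℕ} {φ : ℤ → V} (H : CycleParam G n φ) (c : V → ℕ)

include H

theorem fwd (s : ℤ) (l : ℕ) :
    Can G (seg φ c s l + Pi.single (φ (s + l)) (-(Gf (fun i => c (φ i)) s l)).toNat)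
      (cov φ s l + Pi.single (φ (s + l)) (Gf (fun i => c (φ i)) s l).toNat) := by
  have := can_ev (G := G) (fun i => φ (s + i)) (fun i => c (φ (s + i))) l (fun i _ => by
    have := H.adj (s + i)
    push_cast
    rwa [add_assoc] at this)
  exact this

theorem bwd (s : ℤ) (l : ℕ) :
    Can G (seg φ c s l + Pi.single (φ (s - 1)) (-(Gb (fun i => c (φ i)) s l)).toNat)
      (cov φ s l + Pi.single (φ (s - 1)) (Gb (fun i => c (φ i)) s l).toNat) := by
  have := can_ev (G := G) (fun i => φ (s + l - 1 - i)) (fun i => c (φ (s + l - 1 - i))) l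
    (fun i _ => by
      have := (H.adj (s + l - 1 - (i + 1 : ℕ))).symm
      have e : s + (l : ℤ) - 1 - ((i + 1 : ℕ) : ℤ) + 1 = s + l - 1 - i := by push_cast; ring
      rw [e] at this
      exact this)
  rw [seg_reflect, cov_reflect] at this
  have e : s + (l : ℤ) - 1 - (l : ℤ) = s - 1 := by ring
  rw [e] at this
  exact this

end

/-- The segment can cover itself. -/
def CovSeg (G : SimpleGraph V) (φ : ℤ → V) (c : V → ℕ) (s : ℤ) (l : ℕ) : Prop :=
  Can G (seg φ c s l) (cov φ s l)

theorem CovSeg.cat {φ : ℤ → V} {c : V → ℕ} {s : ℤ} {l m : ℕ} (h1 : CovSeg G φ c s l)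
    (h2 : CovSeg G φ c (s + l) m) : CovSeg G φ c s (l + m) := by
  unfold CovSeg at *
  rw [seg_add, cov_add]
  exact h1.add_add h2

section

variable {n : ℕ} {φ : ℤ → V} (H : CycleParam G n φ) (c : V → ℕ)

include H

theorem covSeg_of_Gf {s : ℤ} {l : ℕ} (h : 0 ≤ Gf (fun i => c (φ i)) s l) :
    CovSeg G φ c s l := by
  have := fwd H c s l
  have e : (-(Gf (fun i => c (φ i)) s l)).toNat = 0 := by omega
  rw [e, Pi.single_zero, add_zero] at this
  exact this.mono_right (le_add_of_nonneg_right (by intro v; simp))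

theorem covSeg_of_Gb {s : ℤ} {l : ℕ} (h : 0 ≤ Gb (fun i => c (φ i)) s l) :
    CovSeg G φ c s l := by
  have := bwd H c s l
  have e : (-(Gb (fun i => c (φ i)) s l)).toNat = 0 := by omega
  rw [e, Pi.single_zero, add_zero] at this
  exact this.mono_right (le_add_of_nonneg_right (by intro v; simp))

theorem covSeg_ext_of_Gf {s : ℤ} {l : ℕ} (h : 1 ≤ Gf (fun i => c (φ i)) s l) :
    CovSeg G φ c s (l + 1) := by
  have := fwd H c s l
  have e : (-(Gf (fun i => c (φ i)) s l)).toNat = 0 := by omega
  rw [e, Pi.single_zero, add_zero] at this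
  unfold CovSeg
  rw [seg_add, cov_add, cov_one]
  have h2 : Can G (seg φ c s l) (cov φ s l + Pi.single (φ (s + l)) 1) := by
    refine this.mono_right ?_
    apply add_le_add le_rfl
    intro w
    by_cases hw : w = φ (s + l)
    · subst hw
      simp only [Pi.single_eq_same]
      omega
    · simp [Pi.single_eq_of_ne hw]
  exact h2.mono_left (le_add_of_nonneg_right (by intro v; simp))

theorem covSeg_ext_of_Gb {s : ℤ} {l : ℕ} (h : 1 ≤ Gb (fun i => c (φ i)) s l) :
    CovSeg G φ c (s - 1) (l + 1) := by
  have := bwd H c s l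
  have e : (-(Gb (fun i => c (φ i)) s l)).toNat = 0 := by omega
  rw [e, Pi.single_zero, add_zero] at this
  unfold CovSeg
  rw [add_comm l 1, seg_add, cov_add, cov_one]
  have e2 : s - 1 + ((1 : ℕ) : ℤ) = s := by push_cast; ring
  rw [e2]
  have h2 : Can G (seg φ c s l) (Pi.single (φ (s - 1)) 1 + cov φ s l) := by
    refine this.mono_right ?_
    rw [add_comm]
    apply add_le_add le_rfl
    intro w
    by_cases hw : w = φ (s - 1)
    · subst hw
      simp only [Pi.single_eq_same]
      omega
    · simp [Pi.single_eq_of_ne hw]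
  exact h2.mono_left (le_add_of_nonneg_left (by intro v; simp))

theorem covSeg_root {r : ℤ} {x y : ℕ}
    (h : 0 ≤ (c (φ r) : ℤ) - 1 + Gf (fun i => c (φ i)) (r - y) y +
      Gb (fun i => c (φ i)) (r + 1) x) :
    CovSeg G φ c (r - y) (y + 1 + x) := by
  have h1 := fwd H c (r - y) y
  have h2 := bwd H c (r + 1) x
  set g1 := Gf (fun i => c (φ i)) (r - y) y with hg1
  set g2 := Gb (fun i => c (φ i)) (r + 1) x with hg2
  have e1 : r - (y : ℤ) + y = r := by ring
  have e2 : r + 1 - 1 = r := by ring
  rw [e1] at h1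
  rw [e2] at h2
  unfold CovSeg
  rw [seg_add, seg_add, cov_add, cov_add]
  have e3 : r - (y : ℤ) + ((y + 1 : ℕ) : ℤ) = r + 1 := by push_cast; ring
  rw [e3, e1, seg_one, cov_one]
  set A := seg φ c (r - y) y
  set B := seg φ c (r + 1) x
  set A' := cov φ (r - y) y
  set B' := cov φ (r + 1) x
  have h3 := h1.add_add h2
  -- the root supplies both sides
  by_cases hg : 0 ≤ g1
  · by_cases hg' : 0 ≤ g2
    · -- both sides export
      have f1 : (-g1).toNat = 0 := by omega
      have f2 : (-g2).toNat = 0 := by omega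
      rw [f1, f2] at h3
      simp only [Pi.single_zero, add_zero] at h3
      have h4 := h3.add (Pi.single (φ r) (c (φ r)))
      refine (h4.mono_left (le_of_eq ?_)).mono_right ?_
      · abel
      · intro w
        by_cases hw : w = φ r
        · subst hw
          simp only [Pi.add_apply, Pi.single_eq_same]
          omega
        · simp [Pi.single_eq_of_ne hw]
    · -- left exports, right needs
      have f1 : (-g1).toNat = 0 := by omega
      rw [f1] at h1
      simp only [Pi.single_zero, add_zero] at h1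
      have h4 := (h1.add (Pi.single (φ r) (c (φ r)))).add B
      refine h4.trans ?_
      have h5 : Can G (B + Pi.single (φ r) (-g2).toNat + (A' + Pi.single (φ r) 1))
          (A' + Pi.single (φ r) 1 + B') := by
        have := h2.add (A' + Pi.single (φ r) 1)
        refine this.mono_right ?_
        intro w
        simp only [Pi.add_apply]
        omega
      refine h5.mono_left ?_
      intro w
      by_cases hw : w = φ r
      · subst hw
        simp only [Pi.add_apply, Pi.single_eq_same]
        omega
      · simp [Pi.single_eq_of_ne hw]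
        omega
  · by_cases hg' : 0 ≤ g2
    · -- right exports, left needs
      have f1 : (-g2).toNat = 0 := by omega
      rw [f1] at h2
      simp only [Pi.single_zero, add_zero] at h2
      have h4 := (h2.add (Pi.single (φ r) (c (φ r)))).add A
      have h4' : Can G (A + Pi.single (φ r) (c (φ r)) + B)
          (B' + Pi.single (φ r) g2.toNat + Pi.single (φ r) (c (φ r)) + A) := by
        refine h4.mono_left (le_of_eq ?_)
        abel
      refine h4'.trans ?_
      have h5 : Can G (A + Pi.single (φ r) (-g1).toNat + (B' + Pi.single (φ r) 1))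
          (A' + Pi.single (φ r) 1 + B') := by
        have := h1.add (B' + Pi.single (φ r) 1)
        refine this.mono_right ?_
        intro w
        simp only [Pi.add_apply]
        omega
      refine h5.mono_left ?_
      intro w
      by_cases hw : w = φ r
      · subst hw
        simp only [Pi.add_apply, Pi.single_eq_same]
        omega
      · simp [Pi.single_eq_of_ne hw]
        omega
    · -- both need
      have h4 := h3.add (Pi.single (φ r) 1)
      refine (h4.mono_left ?_).mono_right ?_
      · intro w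
        by_cases hw : w = φ r
        · subst hw
          simp only [Pi.add_apply, Pi.single_eq_same]
          omega
        · simp [Pi.single_eq_of_ne hw]
      · intro w
        simp only [Pi.add_apply]
        omega

end

end Pool.Agent.X71.Hub
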